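import Mathlib

/-!
# Weak approximation over the rational numbers
-/

set_option autoImplicit false

open Rat.AbsoluteValue

namespace Pool.Agent.Helper80.NE

/-- weak approximation over `ℚ` -/
theorem weak_approx (S : Finset ℕ) (x : ℝ) (x' : ∀ (p : ℕ) [Fact p.Prime], ℚ_[p]) (ε : ℝ)
    (hε : 0 < ε) : ∃ a : ℚ, |(a : ℝ) - x| < ε ∧
      ∀ (p : ℕ) [Fact p.Prime], p ∈ S → ‖(a : ℚ_[p]) - x' p‖ < ε := by
  classical
  let ι := Option {p : ℕ // p ∈ S ∧ p.Prime}
  have hfin : Finite {p : ℕ // p ∈ S ∧ p.Prime} :=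
    Finite.of_injective (fun q => (⟨q.1, q.2.1⟩ : S)) (fun a b h => by
      simpa [Subtype.ext_iff] using h)
  have : Finite ι := inferInstance
  let v : ι → AbsoluteValue ℚ ℝ := fun i => match i with
    | none => real
    | some q => @padic q.1 ⟨q.2.2⟩
  have hpp : ∀ q : {p : ℕ // p ∈ S ∧ p.Prime}, v (some q) q.1 < 1 := by
    intro q
    have fq : Fact q.1.Prime := ⟨q.2.2⟩
    change (padicNorm q.1 (q.1 : ℚ) : ℝ) < 1
    rw [padicNorm.padicNorm_p_of_prime]
    push_cast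
    exact inv_lt_one_of_one_lt₀ (by exact_mod_cast q.2.2.one_lt)
  have hpq : ∀ q r : {p : ℕ // p ∈ S ∧ p.Prime}, q ≠ r → v (some q) r.1 = 1 := by
    intro q r hqr
    have fq : Fact q.1.Prime := ⟨q.2.2⟩
    have fr : Fact r.1.Prime := ⟨r.2.2⟩
    change (padicNorm q.1 (r.1 : ℚ) : ℝ) = 1
    rw [padicNorm.padicNorm_of_prime_of_ne (fun h => hqr (Subtype.ext h))]
    norm_num
  have hnt : ∀ i, (v i).IsNontrivial := by
    intro i
    rcases i with _ | q
    · refine ⟨2, by norm_num, ?_⟩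
      change |((2 : ℚ) : ℝ)| ≠ 1
      norm_num
    · exact ⟨q.1, by exact_mod_cast q.2.2.ne_zero, (hpp q).ne⟩
  have hne : Pairwise fun i j ↦ ¬(v i).IsEquiv (v j) := by
    intro i j hij
    rcases i with _ | q <;> rcases j with _ | r
    · exact absurd rfl hij
    · have fr : Fact r.1.Prime := ⟨r.2.2⟩
      exact not_real_isEquiv_padic r.1
    · have fq : Fact q.1.Prime := ⟨q.2.2⟩
      intro h
      exact not_real_isEquiv_padic q.1 h.symm
    · intro h
      have hqr : q ≠ r := fun e => hij (by rw [e])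
      have h1 := hpp r
      have h2 := h.symm.lt_one_iff.mp h1
      rw [hpq q r hqr] at h2
      exact lt_irrefl _ h2
  -- rational targets
  obtain ⟨y, hy⟩ := exists_rat_btwn (show x - ε / 2 < x by linarith)
  have hy' : ∀ q : {p : ℕ // p ∈ S ∧ p.Prime}, ∃ r : ℚ,
      haveI : Fact q.1.Prime := ⟨q.2.2⟩; ‖x' q.1 - (r : ℚ_[q.1])‖ < ε / 2 := by
    intro q
    have fq : Fact q.1.Prime := ⟨q.2.2⟩
    exact Padic.rat_dense q.1 (x' q.1) (by linarith)
  choose yp hyp using hy'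
  let z : (i : ι) → WithAbs (v i) := fun i => match i with
    | none => (WithAbs.equiv (v none)).symm y
    | some q => (WithAbs.equiv (v (some q))).symm (yp q)
  have hF : Fintype ι := Fintype.ofFinite ι
  obtain ⟨a, ha⟩ := Metric.denseRange_iff.mp (AbsoluteValue.denseRange_algebraMap_pi hnt hne) z
    (ε / 2) (by linarith)
  rw [dist_pi_lt_iff (by linarith)] at ha
  refine ⟨a, ?_, ?_⟩
  · have h1 := ha none
    have h2 : |(a : ℝ) - y| < ε / 2 := by
      rw [dist_comm, dist_eq_norm] at h1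
      have h1' : v none (a - y) < ε / 2 := h1
      have h1'' : |((a - y : ℚ) : ℝ)| < ε / 2 := h1'
      push_cast at h1''
      exact h1''
    have h3 := abs_sub_lt_iff.mp h2
    rw [abs_sub_lt_iff]
    constructor <;> linarith
  · intro p fp hpS
    have h1 := ha (some ⟨p, hpS, fp.out⟩)
    rw [dist_comm, dist_eq_norm] at h1
    have h1' : v (some ⟨p, hpS, fp.out⟩) (a - yp ⟨p, hpS, fp.out⟩) < ε / 2 := h1
    have h1'' : (padicNorm p (a - yp ⟨p, hpS, fp.out⟩) : ℝ) < ε / 2 := h1'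
    have h2 : ‖((a - yp ⟨p, hpS, fp.out⟩ : ℚ) : ℚ_[p])‖ < ε / 2 := by
      rw [Padic.eq_padicNorm]; exact h1''
    have h3 := hyp ⟨p, hpS, fp.out⟩
    rw [norm_sub_rev] at h3
    push_cast at h2
    calc ‖(a : ℚ_[p]) - x' p‖ = ‖((a : ℚ_[p]) - yp ⟨p, hpS, fp.out⟩) +
          ((yp ⟨p, hpS, fp.out⟩ : ℚ_[p]) - x' p)‖ := by congr 1; ring
      _ ≤ _ := norm_add_le _ _
      _ < ε / 2 + ε / 2 := add_lt_add h2 h3
      _ = ε := by ring

end Pool.Agent.Helper80.NE
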