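import Pool.Agent.Helper80.NE.Cv

/-!
# Curves close to a given integral curve
-/

set_option autoImplicit false

open WeierstrassCurve NumberField IsDedekindDomain

namespace Pool.Agent.Helper80.NE

open Pool.Agent.TH942 Pool.Agent.Y680.M Pool.Agent.Y680.G
open Pool.Agent.Results.MP_c59389_nt.AllInvariantsAllHeights

/-- the slope is large if the point is close to the origin -/
lemma slope_real {k x y c4 c6 δ : ℝ} (hδ : 0 < δ) (e : y ^ 2 = x ^ 3 + k)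
    (hy : |k| + 1 + 2 * |c6| + 4 * |c4| / δ + 128 / δ ^ 3 < |y|) :
    y - c6 ≠ 0 ∧ |(x - c4) / (y - c6)| ≤ δ := by
  have h1 : 0 ≤ 4 * |c4| / δ := by positivity
  have h2 : 0 < 128 / δ ^ 3 := by positivity
  have h3 := abs_nonneg k
  have h4 := abs_nonneg c6
  have hy1 : 1 ≤ |y| := by linarith
  have hyc : |y| / 2 ≤ |y - c6| := by
    have := abs_sub_abs_le_abs_sub y c6
    linarith
  have hpos : 0 < |y - c6| := lt_of_lt_of_le (by linarith) hyc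
  have hne : y - c6 ≠ 0 := abs_pos.mp hpos
  refine ⟨hne, ?_⟩
  rw [abs_div, div_le_iff₀ hpos]
  have hx3 : |x| ^ 3 ≤ (δ * |y| / 4) ^ 3 := by
    have e1 : |x| ^ 3 = |y ^ 2 - k| := by rw [← abs_pow, e]; congr 1; ring
    have e2 : |y ^ 2 - k| ≤ |y ^ 2| + |k| := abs_sub _ _
    rw [abs_of_nonneg (sq_nonneg y)] at e2
    have e3 : |k| ≤ y ^ 2 := by
      have : |y| ≤ |y| ^ 2 := le_self_pow₀ hy1 (by norm_num)
      rw [sq_abs] at this
      linarith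
    have e4 : 128 ≤ δ ^ 3 * |y| := by
      have : 128 / δ ^ 3 ≤ |y| := by linarith
      rw [div_le_iff₀ (by positivity)] at this
      linarith
    have e5 : 2 * y ^ 2 ≤ (δ * |y| / 4) ^ 3 := by
      have : (δ * |y| / 4) ^ 3 = (δ ^ 3 * |y|) * |y| ^ 2 / 64 := by ring
      rw [this, sq_abs]
      have := mul_le_mul_of_nonneg_right e4 (sq_nonneg y)
      linarith
    linarith
  have hx : |x| ≤ δ * |y| / 4 := by
    exact le_of_pow_le_pow_left₀ (by norm_num) (by positivity) hx3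
  have hc : |c4| ≤ δ * |y| / 4 := by
    have : 4 * |c4| / δ ≤ |y| := by linarith
    rw [div_le_iff₀ hδ] at this
    linarith
  calc |x - c4| ≤ |x| + |c4| := abs_sub _ _
    _ ≤ δ * (|y| / 2) := by linarith
    _ ≤ δ * |y - c6| := mul_le_mul_of_nonneg_left hyc hδ.le

lemma h4_one (c4 c6 s t : ℝ) (hs : s ≠ 0) : h4 c4 c6 s t / s ^ 4 = h4 c4 c6 1 (t / s) := by
  simp only [h4]; field_simp

lemma h6_one (c4 c6 s t : ℝ) (hs : s ≠ 0) : h6 c4 c6 s t / s ^ 6 = h6 c4 c6 1 (t / s) := by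
  simp only [h6]; field_simp

lemma exists_delta (c4 c6 v w ε : ℝ) (hε : 0 < ε) :
    ∃ δ : ℝ, 0 < δ ∧ ∀ τ : ℝ, |τ| ≤ δ → |h4 c4 c6 1 τ / v - c4 / v| < ε ∧
      |h6 c4 c6 1 τ / w - c6 / w| < ε := by
  have c1 : Continuous (fun τ : ℝ => h4 c4 c6 1 τ / v) := by
    simp only [h4]; fun_prop
  have c2 : Continuous (fun τ : ℝ => h6 c4 c6 1 τ / w) := by
    simp only [h6]; fun_prop
  obtain ⟨δ1, h1, H1⟩ := Metric.continuous_iff.mp c1 0 ε hε
  obtain ⟨δ2, h2, H2⟩ := Metric.continuous_iff.mp c2 0 ε hε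
  refine ⟨min δ1 δ2 / 2, by positivity, fun τ hτ => ?_⟩
  have hm : 0 < min δ1 δ2 := lt_min h1 h2
  have t1 : |τ| < δ1 := lt_of_le_of_lt hτ (by have := min_le_left δ1 δ2; linarith)
  have t2 : |τ| < δ2 := lt_of_le_of_lt hτ (by have := min_le_right δ1 δ2; linarith)
  have e4 : h4 c4 c6 1 0 = c4 := by simp only [h4]; ring
  have e6 : h6 c4 c6 1 0 = c6 := by simp only [h6]; ring
  have k1 := H1 τ (by rw [Real.dist_eq, sub_zero]; exact t1)
  have k2 := H2 τ (by rw [Real.dist_eq, sub_zero]; exact t2)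
  simp only [Real.dist_eq, e4, e6] at k1 k2
  exact ⟨k1, k2⟩

/-- `p`-adic closeness -/
lemma padic_close {p : ℕ} (hp : p.Prime) {K : ℕ} {x s t v e : ℤ} (n : ℕ) (hv : v ≠ 0)
    (hst : IsCoprime s t) (hK : 1 ≤ K) (ht : (p : ℤ) ^ K ∣ t) (hx : x = t * e) :
    (padicNorm p ((x : ℚ) / ((s : ℚ) ^ n * v)) : ℝ) ≤ |(v : ℝ)| / 2 ^ K := by
  have fp : Fact p.Prime := ⟨hp⟩
  have hps : padicNorm p (s : ℚ) = 1 := by
    rw [padicNorm.int_eq_one_iff]
    intro h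
    have h2 : (p : ℤ) ∣ t := (dvd_pow_self _ (by omega)).trans ht
    have := hst.isUnit_of_dvd' h h2
    rw [Int.isUnit_iff_natAbs_eq, Int.natAbs_natCast] at this
    exact hp.one_lt.ne' this
  have hpt : padicNorm p (x : ℚ) ≤ ((p : ℚ) ^ K)⁻¹ := by
    have h1 : ((p ^ K : ℕ) : ℤ) ∣ x := by
      rw [hx]; push_cast
      exact ht.mul_right _
    have := padicNorm.dvd_iff_norm_le.mp h1
    simpa [zpow_neg] using this
  have hv1 : (|(v : ℚ)|)⁻¹ ≤ padicNorm p (v : ℚ) := by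
    have hvn : v.natAbs ≠ 0 := Int.natAbs_ne_zero.mpr hv
    have h1 : padicNorm p (v : ℚ) = padicNorm p ((v.natAbs : ℕ) : ℚ) := by
      rw [Nat.cast_natAbs, Int.cast_abs]
      rcases abs_choice (v : ℚ) with h | h
      · rw [h]
      · rw [h, padicNorm.neg]
    have h2 : |(v : ℚ)| = ((v.natAbs : ℕ) : ℚ) := by
      rw [Nat.cast_natAbs, Int.cast_abs]
    rw [h1, h2, padicNorm.eq_zpow_of_nonzero (by exact_mod_cast hvn), padicValRat.of_nat, zpow_neg,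
      zpow_natCast]
    apply inv_anti₀ (by exact_mod_cast pow_pos hp.pos _)
    exact_mod_cast Nat.le_of_dvd (Nat.pos_of_ne_zero hvn) pow_padicValNat_dvd
  have hvpos : 0 < |(v : ℚ)| := abs_pos.mpr (by exact_mod_cast hv)
  have hp2 : (2 : ℚ) ^ K ≤ (p : ℚ) ^ K :=
    pow_le_pow_left₀ (by norm_num) (by exact_mod_cast hp.two_le) K
  have key : padicNorm p ((x : ℚ) / ((s : ℚ) ^ n * v)) ≤ |(v : ℚ)| / 2 ^ K := by
    rw [padicNorm.div, padicNorm.mul, vpow, hps, one_pow, one_mul]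
    have hpv : 0 < padicNorm p (v : ℚ) := lt_of_lt_of_le (inv_pos.mpr hvpos) hv1
    rw [div_le_div_iff₀ hpv (by positivity)]
    have h1 : 1 ≤ |(v : ℚ)| * padicNorm p (v : ℚ) := by
      have := mul_le_mul_of_nonneg_left hv1 hvpos.le
      rwa [mul_inv_cancel₀ hvpos.ne'] at this
    have h2 : padicNorm p (x : ℚ) * 2 ^ K ≤ 1 := by
      calc padicNorm p (x : ℚ) * 2 ^ K ≤ ((p : ℚ) ^ K)⁻¹ * (p : ℚ) ^ K :=
            mul_le_mul hpt hp2 (by positivity) (by positivity)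
        _ = 1 := inv_mul_cancel₀ (by
            have : (0 : ℚ) < (p : ℚ) ^ K := lt_of_lt_of_le (by positivity) hp2
            exact this.ne')
    linarith
  have := (Rat.cast_le (K := ℝ)).mpr key
  push_cast at this
  exact this

/-- the curve of the family with parameter `t / s` -/
noncomputable def ca (c4 c6 s t : ℤ) (u : ℕ) : ℚ := -(h4 c4 c6 s t : ℤ) / (48 * (s : ℚ) ^ 4 * (u : ℚ) ^ 4)

noncomputable def cb (c4 c6 s t : ℤ) (u : ℕ) : ℚ := -(h6 c4 c6 s t : ℤ) / (864 * (s : ℚ) ^ 6 * (u : ℚ) ^ 6)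

lemma iso_V (c4 c6 s t : ℤ) (u : ℕ) (hs : s ≠ 0) (hu : u ≠ 0) :
    ∃ T : WeierstrassCurve.VariableChange ℚ, T • (sw (ca c4 c6 s t u) (cb c4 c6 s t u)) =
      (⟨0, 0, 0, -27 * h4 c4 c6 s t, -54 * h6 c4 c6 s t⟩ : WeierstrassCurve ℤ).map
        (Int.castRingHom ℚ) := by
  have hsq : (s : ℚ) ≠ 0 := by exact_mod_cast hs
  have huq : (u : ℚ) ≠ 0 := by exact_mod_cast hu
  have h6 : (6 * (s : ℚ) * u)⁻¹ ≠ 0 := inv_ne_zero (mul_ne_zero (mul_ne_zero (by norm_num) hsq) huq)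
  refine ⟨⟨Units.mk0 _ h6, 0, 0, 0⟩, ?_⟩
  ext
  · simp [sw, WeierstrassCurve.variableChange_a₁]
  · simp [sw, WeierstrassCurve.variableChange_a₂]
  · simp [sw, WeierstrassCurve.variableChange_a₃]
  · simp only [WeierstrassCurve.variableChange_a₄, WeierstrassCurve.map_a₄, sw, ca,
      Units.val_inv_eq_inv_val, Units.val_mk0, eq_intCast]
    push_cast
    field_simp
    ring
  · simp only [WeierstrassCurve.variableChange_a₆, WeierstrassCurve.map_a₆, sw, cb,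
      Units.val_inv_eq_inv_val, Units.val_mk0, eq_intCast]
    push_cast
    field_simp
    ring

lemma V_Δ (c4 c6 D s t ω : ℤ) (h : c4 ^ 3 - c6 ^ 2 = 1728 * D) (hω : ω ^ 2 = hF c4 c6 s t) :
    (⟨0, 0, 0, -27 * h4 c4 c6 s t, -54 * h6 c4 c6 s t⟩ : WeierstrassCurve ℤ).Δ =
      (2176782336 * D) * ω ^ 6 := by
  have hr := h_rel c4 c6 s t
  rw [h, ← hω] at hr
  simp only [WeierstrassCurve.Δ, WeierstrassCurve.b₂, WeierstrassCurve.b₄, WeierstrassCurve.b₆,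
    WeierstrassCurve.b₈]
  linear_combination (1259712 : ℤ) * hr

lemma V_c4 (c4 c6 s t : ℤ) :
    (⟨0, 0, 0, -27 * h4 c4 c6 s t, -54 * h6 c4 c6 s t⟩ : WeierstrassCurve ℤ).c₄ =
      1296 * h4 c4 c6 s t := by
  simp only [WeierstrassCurve.c₄, WeierstrassCurve.b₂, WeierstrassCurve.b₄]
  ring

/-- **Curves close to a given integral curve.** -/
theorem near_int (hR : S_REAL) (hFC : S_FC) {c4 c6 D : ℤ} (h : Bse c4 c6 D) (u : ℕ) (hu : u ≠ 0)
    (ε : ℝ) (hε : 0 < ε) (C : ℝ) : ∃ a b : ℚ, (sw a b).Δ ≠ 0 ∧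
      |(a : ℝ) - (-(c4 : ℝ) / (48 * (u : ℝ) ^ 4))| < ε ∧
      |(b : ℝ) - (-(c6 : ℝ) / (864 * (u : ℝ) ^ 6))| < ε ∧
      (∀ p : ℕ, p.Prime → (p : ℤ) ∣ 1728 * D →
        (padicNorm p (a - (-(c4 : ℚ) / (48 * (u : ℚ) ^ 4))) : ℝ) < ε ∧
        (padicNorm p (b - (-(c6 : ℚ) / (864 * (u : ℚ) ^ 6))) : ℝ) < ε) ∧
      ∀ τ : InfinitePlace ℚ → UpperHalfPlane, IsPeriod ((sw a b).c₄ ^ 3 / (sw a b).Δ) τ →
        1 / 2 * Real.log (cond (sw a b)) + C < faltings ((sw a b).c₄ ^ 3 / (sw a b).Δ) τ := by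
  have hD0 : (2176782336 * D : ℤ) ≠ 0 := mul_ne_zero (by norm_num) h.D0
  obtain ⟨C0, hC0⟩ := hFC (2176782336 * D) hD0
  have hur : (0 : ℝ) < u := by exact_mod_cast Nat.pos_of_ne_zero hu
  -- the exponents
  obtain ⟨J, hJ⟩ := exists_nat_gt ((C0 + C) / (1 / 2 * Real.log 2))
  have hl2 : 0 < Real.log 2 := Real.log_pos (by norm_num)
  rw [div_lt_iff₀ (by positivity)] at hJ
  obtain ⟨K, hK⟩ := pow_unbounded_of_one_lt ((48 * (u : ℝ) ^ 4 + 864 * (u : ℝ) ^ 6) / ε)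
    (by norm_num : (1 : ℝ) < 2)
  obtain ⟨δ, hδ, hδ'⟩ := exists_delta (c4 : ℝ) c6 (48 * (u : ℝ) ^ 4) (864 * (u : ℝ) ^ 6) ε hε
  obtain ⟨m, hm3, hmd, hmB, hmω⟩ := exists_mult hR h K J
    (|(kk c4 c6 : ℝ)| + 1 + 2 * |(c6 : ℝ)| + 4 * |(c4 : ℝ)| / δ + 128 / δ ^ 3)
  obtain ⟨x, y, nR, s, t, ω, eR, hxne, ht0, hlam, hst, hpt, hω0, hωF, hcop1, hcop2, hdn⟩ :=
    curve2 h K m hm3 hmd
  rw [eR] at hmB
  change _ < |(y : ℝ)| at hmB
  have heqn : (y : ℝ) ^ 2 = (x : ℝ) ^ 3 + (kk c4 c6 : ℝ) := by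
    have : y ^ 2 = x ^ 3 + kk c4 c6 := by
      have := (sw_short (kk c4 c6)).eqn.mp nR.1
      rw [this]
      change x ^ 3 + 0 * x + kk c4 c6 = _
      ring
    exact_mod_cast this
  obtain ⟨hyc, hsl⟩ := slope_real hδ heqn hmB
  have hycq : y - (c6 : ℚ) ≠ 0 := by exact_mod_cast hyc
  have hxcq : x - (c4 : ℚ) ≠ 0 := sub_ne_zero.mpr hxne
  have hs0 : s ≠ 0 := by
    rintro rfl
    have : (y - (c6 : ℚ)) / (x - c4) * (t : ℚ) = 0 := by rw [hlam]; simp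
    rcases mul_eq_zero.mp this with h1 | h1
    · rcases div_eq_zero_iff.mp h1 with h2 | h2
      · exact hycq h2
      · exact hxcq h2
    · exact ht0 (by exact_mod_cast h1)
  have hsq : (s : ℚ) ≠ 0 := by exact_mod_cast hs0
  have hsr : (s : ℝ) ≠ 0 := by exact_mod_cast hs0
  have hτ : |(t : ℝ) / s| ≤ δ := by
    have e : (t : ℚ) / s = (x - c4) / (y - c6) := by
      rw [div_eq_div_iff hsq hycq, ← hlam]
      field_simp
    have e' : (t : ℝ) / s = ((x : ℝ) - c4) / (y - c6) := by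
      have := congrArg (fun q : ℚ => (q : ℝ)) e
      push_cast at this
      exact this
    rw [e']
    exact hsl
  obtain ⟨hd4, hd6⟩ := hδ' _ hτ
  rw [← h4_one _ _ _ _ hsr] at hd4
  rw [← h6_one _ _ _ _ hsr] at hd6
  have huq : (u : ℚ) ≠ 0 := by exact_mod_cast hu
  obtain ⟨T, hT⟩ := iso_V c4 c6 s t u hs0 hu
  -- the discriminant
  obtain ⟨V, hV⟩ : ∃ V : WeierstrassCurve ℤ,
    V = ⟨0, 0, 0, -27 * h4 c4 c6 s t, -54 * h6 c4 c6 s t⟩ := ⟨_, rfl⟩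
  have hVD : V.Δ = (2176782336 * D) * ω ^ 6 := by rw [hV]; exact V_Δ c4 c6 D s t ω h.rel hωF
  have hωn : ((ω.natAbs : ℕ) : ℤ) ^ 6 = ω ^ 6 := by
    have h2 : ((ω.natAbs : ℤ)) ^ 2 = ω ^ 2 := by push_cast; exact sq_abs ω
    calc ((ω.natAbs : ℤ)) ^ 6 = (((ω.natAbs : ℤ)) ^ 2) ^ 3 := by ring
      _ = ω ^ 6 := by rw [h2]; ring
  have hVD0 : V.Δ ≠ 0 := by rw [hVD]; exact mul_ne_zero hD0 (pow_ne_zero 6 hω0)
  have hE0 : (sw (ca c4 c6 s t u) (cb c4 c6 s t u)).Δ ≠ 0 := by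
    intro h0
    have h1 := WeierstrassCurve.variableChange_Δ (sw (ca c4 c6 s t u) (cb c4 c6 s t u)) T
    rw [hT, h0, mul_zero, ← hV, WeierstrassCurve.map_Δ, eq_intCast] at h1
    exact hVD0 (by exact_mod_cast h1)
  have hcopD : IsCoprime D ω := hcop2.of_mul_left_right
  have hcop6 : IsCoprime (6 : ℤ) ω := by
    have : IsCoprime (1728 : ℤ) ω := hcop2.of_mul_left_left
    exact this.of_isCoprime_of_dvd_left ⟨288, by norm_num⟩
  have habs : ∀ z : ℤ, IsCoprime z ω → IsCoprime z ((ω.natAbs : ℕ) : ℤ) := by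
    intro z hz
    have h3 := hz.abs_right
    rwa [Int.abs_eq_natAbs] at h3
  have hgain := hmω ω.natAbs (Int.natAbs_ne_zero.mpr hω0) hdn
  refine ⟨ca c4 c6 s t u, cb c4 c6 s t u, hE0, ?_, ?_, ?_, ?_⟩
  · have e : ((ca c4 c6 s t u : ℚ) : ℝ) - (-(c4 : ℝ) / (48 * (u : ℝ) ^ 4)) =
        -(h4 (c4 : ℝ) c6 s t / s ^ 4 / (48 * (u : ℝ) ^ 4) - c4 / (48 * (u : ℝ) ^ 4)) := by
      have e1 : ((h4 c4 c6 s t : ℤ) : ℝ) = h4 (c4 : ℝ) c6 s t := by simp [h4]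
      rw [ca]
      push_cast
      rw [e1]
      field_simp
      ring
    rw [e, abs_neg]
    exact hd4
  · have e : ((cb c4 c6 s t u : ℚ) : ℝ) - (-(c6 : ℝ) / (864 * (u : ℝ) ^ 6)) =
        -(h6 (c4 : ℝ) c6 s t / s ^ 6 / (864 * (u : ℝ) ^ 6) - c6 / (864 * (u : ℝ) ^ 6)) := by
      have e1 : ((h6 c4 c6 s t : ℤ) : ℝ) = h6 (c4 : ℝ) c6 s t := by simp [h6]
      rw [cb]
      push_cast
      rw [e1]
      field_simp
      ring
    rw [e, abs_neg]
    exact hd6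
  · intro p hp hpd
    have hpK := hpt p hp hpd
    have h2K : (2 : ℝ) ^ K ≤ 2 ^ (6 + K) := pow_le_pow_right₀ (by norm_num) (by omega)
    have hbig : (48 * (u : ℝ) ^ 4 + 864 * (u : ℝ) ^ 6) / 2 ^ (6 + K) < ε := by
      rw [div_lt_iff₀ (by positivity)]
      rw [div_lt_iff₀ hε] at hK
      have := mul_le_mul_of_nonneg_left h2K hε.le
      linarith
    constructor
    · have e : ca c4 c6 s t u - (-(c4 : ℚ) / (48 * (u : ℚ) ^ 4)) =
          (((-(t * (-4 * c6 * s ^ 3 + 6 * c4 ^ 2 * s ^ 2 * t - 4 * c4 * c6 * s * t ^ 2 +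
            (4 * c6 ^ 2 - 3 * c4 ^ 3) * t ^ 3)) : ℤ)) : ℚ) / ((s : ℚ) ^ 4 * ((48 * u ^ 4 : ℤ) : ℚ)) := by
        rw [ca]
        simp only [h4]
        push_cast
        field_simp
        ring
      rw [e]
      refine lt_of_le_of_lt (padic_close hp 4 (K := 6 + K) (by positivity) hst (by omega) hpK
        (e := -(-4 * c6 * s ^ 3 + 6 * c4 ^ 2 * s ^ 2 * t - 4 * c4 * c6 * s * t ^ 2 +
            (4 * c6 ^ 2 - 3 * c4 ^ 3) * t ^ 3)) (by ring)) ?_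
      refine lt_of_le_of_lt ?_ hbig
      apply div_le_div_of_nonneg_right _ (by positivity)
      push_cast
      rw [abs_of_nonneg (by positivity)]
      have : 0 ≤ 864 * (u : ℝ) ^ 6 := by positivity
      linarith
    · have e : cb c4 c6 s t u - (-(c6 : ℚ) / (864 * (u : ℚ) ^ 6)) =
          (((-(t * (-6 * c4 ^ 2 * s ^ 5 + 15 * c4 * c6 * s ^ 4 * t - 20 * c6 ^ 2 * s ^ 3 * t ^ 2
            + 15 * c4 ^ 2 * c6 * s ^ 2 * t ^ 3 - 6 * (3 * c4 ^ 4 - 2 * c4 * c6 ^ 2) * s * t ^ 4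
            + (9 * c4 ^ 3 * c6 - 8 * c6 ^ 3) * t ^ 5)) : ℤ)) : ℚ) /
            ((s : ℚ) ^ 6 * ((864 * u ^ 6 : ℤ) : ℚ)) := by
        rw [cb]
        simp only [h6]
        push_cast
        field_simp
        ring
      rw [e]
      refine lt_of_le_of_lt (padic_close hp 6 (K := 6 + K) (by positivity) hst (by omega) hpK
        (e := -(-6 * c4 ^ 2 * s ^ 5 + 15 * c4 * c6 * s ^ 4 * t - 20 * c6 ^ 2 * s ^ 3 * t ^ 2
            + 15 * c4 ^ 2 * c6 * s ^ 2 * t ^ 3 - 6 * (3 * c4 ^ 4 - 2 * c4 * c6 ^ 2) * s * t ^ 4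
            + (9 * c4 ^ 3 * c6 - 8 * c6 ^ 3) * t ^ 5)) (by ring)) ?_
      refine lt_of_le_of_lt ?_ hbig
      apply div_le_div_of_nonneg_right _ (by positivity)
      push_cast
      rw [abs_of_nonneg (by positivity)]
      have : 0 ≤ 48 * (u : ℝ) ^ 4 := by positivity
      linarith
  · intro τ hτp
    have key := hC0 V ω.natAbs (Int.natAbs_ne_zero.mpr hω0) (by rw [hVD, hωn])
      (by
        apply habs
        rw [hV, V_c4]
        have h1296 : IsCoprime (1296 : ℤ) ω := by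
          have : (1296 : ℤ) = 6 ^ 4 := by norm_num
          rw [this]; exact hcop6.pow_left
        exact h1296.mul_left hcop1)
      (by
        apply habs
        have h1 : IsCoprime (1728 : ℤ) ω := hcop2.of_mul_left_left
        have h2 : IsCoprime (2176782336 : ℤ) ω := by
          have : (2176782336 : ℤ) = 6 ^ 12 := by norm_num
          rw [this]; exact hcop6.pow_left
        exact h1.mul_left (h2.mul_left hcopD))
      hVD0 _ T (by rw [hT, hV]) τ hτp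
    have hrad : (1 : ℝ) ≤ rad ω.natAbs := by exact_mod_cast rad_pos _
    have hg : (2 : ℝ) ^ J ≤ (ω.natAbs : ℝ) / rad ω.natAbs := by
      rw [le_div_iff₀ (by linarith)]
      have : (rad ω.natAbs : ℝ) * 2 ^ J ≤ (ω.natAbs : ℝ) := by exact_mod_cast hgain
      linarith
    have hlog : (J : ℝ) * Real.log 2 ≤ Real.log ((ω.natAbs : ℝ) / rad ω.natAbs) := by
      rw [← Real.log_pow]
      exact Real.log_le_log (by positivity) hg
    linarith

end Pool.Agent.Helper80.NE
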