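import Pool.Agent.Helper80.NE.Stm

/-!
# The curves attached to the multiples `1 + 2 m` of the point
-/

set_option autoImplicit false

open WeierstrassCurve

namespace Pool.Agent.Helper80.NE

open Pool.Agent.TH942 Pool.Agent.Y680.M Pool.Agent.Y680.G

variable {c4 c6 D : ℤ}

theorem curve2 (h : Bse c4 c6 D) (K m : ℕ) (hm3 : 3 ≤ m)
    (hdiv : mu h * (1728 * D).natAbs ^ (6 + K) ∣ m) :
    ∃ (x y : ℚ) (nR : (sw (0 : ℚ) (kk c4 c6)).toAffine.Nonsingular x y) (s t ω : ℤ),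
      m • q1 h = (Affine.Point.some x y nR : SPt (0 : ℚ) (kk c4 c6)) ∧ x ≠ (c4 : ℚ) ∧
      t ≠ 0 ∧ (y - c6) / (x - c4) * (t : ℚ) = s ∧ IsCoprime s t ∧
      (∀ p : ℕ, p.Prime → (p : ℤ) ∣ 1728 * D → ((p : ℤ) ^ (6 + K)) ∣ t) ∧
      ω ≠ 0 ∧ ω ^ 2 = hF c4 c6 s t ∧ IsCoprime (h4 c4 c6 s t) ω ∧ IsCoprime (1728 * D) ω ∧
      dn h (1 + 2 * m) = ω.natAbs ^ 2 := by
  have hD : D ≠ 0 := h.D0
  set H := (1728 * D).natAbs with hH
  have hDne : (1728 * D) ≠ 0 := mul_ne_zero (by norm_num) hD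
  obtain ⟨x, y, nR, eR, hx0⟩ := mul_some h m (by omega)
  have hxne : x ≠ (c4 : ℚ) := by
    intro hx
    have hor : y = (c6 : ℚ) ∨ y = -(c6 : ℚ) := by
      apply sq_eq_sq_iff_eq_or_eq_neg.mp
      rw [(sw_short _).eqn.mp nR.1, (sw_short _).eqn.mp (q1_ns h).1, hx]
    rcases hor with h' | h'
    · have h1 : m • q1 h = q1 h := by
        rw [eR]
        simp only [q1, Affine.Point.some.injEq]
        exact ⟨hx, h'⟩
      apply q1_inf h (m - 1) (by omega)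
      have h2 : m • q1 h = (m - 1) • q1 h + q1 h := by
        conv_lhs => rw [show m = (m - 1) + 1 by omega]
        rw [add_smul, one_smul]
      rw [h2] at h1
      exact add_eq_right.mp h1
    · have h1 : m • q1 h = - q1 h := by
        rw [eR, q1, (sw_short _).neg_some (q1_ns h) ((sw_short _).nonsing_neg (q1_ns h))]
        simp only [Affine.Point.some.injEq]
        exact ⟨hx, h'⟩
      apply q1_inf h (m + 1) (by omega)
      rw [add_smul, one_smul, h1, neg_add_cancel]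
  have hnq : (1 + 2 * m) • q1 h = q1 h + 2 • (m • q1 h) := by
    rw [smul_smul, add_smul, one_smul]
  have hne : (Affine.Point.some (c4 : ℚ) (c6 : ℚ) (q1_ns h) : SPt (0 : ℚ) (kk c4 c6)) +
      2 • (Affine.Point.some x y nR : SPt (0 : ℚ) (kk c4 c6)) ≠ 0 := by
    have : (1 + 2 * m) • q1 h ≠ 0 := q1_inf h _ (by omega)
    rw [hnq, eR] at this
    exact this
  obtain ⟨w, X, Y, nQ, hw0, hw2, hX, hY, hQ⟩ := hesse_id (q1_ns h) nR hxne hne
  have hnQ : (1 + 2 * m) • q1 h = Affine.Point.some X Y nQ := by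
    rw [hnq, eR]; exact hQ
  set lam := (y - (c6 : ℚ)) / (x - (c4 : ℚ)) with hlam
  set s := lam.num with hs
  set t : ℤ := (lam.den : ℤ) with ht
  have hst : lam * (t : ℚ) = s := by
    rw [ht, hs]; push_cast; exact Rat.mul_den_eq_num lam
  have hcop : IsCoprime s t := by
    rw [hs, ht]
    exact Int.isCoprime_iff_gcd_eq_one.mpr (by
      have := lam.reduced
      rwa [Int.gcd, Int.natAbs_natCast])
  have ht0 : (t : ℚ) ≠ 0 := by
    rw [ht]; push_cast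
    exact_mod_cast lam.den_ne_zero
  have hp6 : ∀ p : ℕ, p.Prime → (p : ℤ) ∣ 1728 * D → p ^ (6 + K) ∣ lam.den := by
    intro p hp hpd
    have fp : Fact p.Prime := ⟨hp⟩
    have hp1 : (1 : ℚ) < p := by exact_mod_cast hp.one_lt
    have hpi : (p : ℚ)⁻¹ < 1 := inv_lt_one_of_one_lt₀ hp1
    have hpi0 : 0 < (p : ℚ)⁻¹ := by positivity
    have hpH : p ∣ H := by
      rw [hH]; exact Int.natCast_dvd.mp hpd
    have hdm : p ^ (6 + K) * mu h ∣ m := by
      refine dvd_trans ?_ hdiv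
      rw [mul_comm]
      exact mul_dvd_mul_left _ (pow_dvd_pow_of_dvd hpH (6 + K))
    have hnear := near_mul h hpd (6 + K) m hdm
    rw [eR] at hnear
    have hsl := slope_den (x0 := (c4 : ℚ)) (y0 := (c6 : ℚ)) (pow_pos hpi0 (6 + K))
      (pow_lt_one₀ hpi0.le hpi (by omega)) (h.k_lt hpd) (padicNorm.of_int _)
      (padicNorm.of_int _) nR hnear
    apply den_dvd
    rw [inv_pow, inv_inv] at hsl
    exact hsl
  have hpt : ∀ p : ℕ, p.Prime → (p : ℤ) ∣ 1728 * D → ((p : ℤ) ^ (6 + K)) ∣ t := by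
    intro p hp hpd
    rw [ht]
    exact_mod_cast hp6 p hp hpd
  have htz : ∀ z : ℤ, Prime z → z ∣ 1728 * D → z ∣ t := by
    intro z hz hzd
    have hp : z.natAbs.Prime := Int.prime_iff_natAbs_prime.mp hz
    have h1 := hp6 z.natAbs hp (Int.natAbs_dvd.mpr hzd)
    have h2 : z.natAbs ∣ lam.den := (dvd_pow_self _ (by omega)).trans h1
    rw [ht]
    exact Int.natAbs_dvd.mp (by exact_mod_cast h2)
  have hF1 : (w * t ^ 2) ^ 2 = ((hF c4 c6 s t : ℤ) : ℚ) := by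
    have e1 : ((hF c4 c6 s t : ℤ) : ℚ) = hF (c4 : ℚ) c6 s t := by simp [hF]
    rw [e1, ← hF_hom (c4 : ℚ) c6 lam t s hst, ← hw2]
    ring
  obtain ⟨ω, hω⟩ := int_of_sq hF1
  have hωF : ω ^ 2 = hF c4 c6 s t := by
    have : ((ω ^ 2 : ℤ) : ℚ) = ((hF c4 c6 s t : ℤ) : ℚ) := by
      rw [← hF1, hω]; push_cast; ring
    exact_mod_cast this
  have hω0 : ω ≠ 0 := by
    rintro rfl
    have : w * (t : ℚ) ^ 2 = 0 := by rw [hω]; simp
    rcases mul_eq_zero.mp this with h1 | h1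
    · exact hw0 h1
    · exact ht0 (pow_eq_zero_iff (two_ne_zero) |>.mp h1)
  have hF0 : hF c4 c6 s t ≠ 0 := by rw [← hωF]; exact pow_ne_zero 2 hω0
  obtain ⟨cop1, cop2⟩ := model_coprime h hcop htz hF0
  have hVc : IsCoprime (h4 c4 c6 s t) ω := by
    rw [← hωF, pow_two] at cop1
    exact cop1.of_mul_right_left
  have hXV : ((h4 c4 c6 s t : ℤ) : ℚ) = (ω : ℚ) ^ 2 * X := by
    have e1 : ((h4 c4 c6 s t : ℤ) : ℚ) = h4 (c4 : ℚ) c6 s t := by simp [h4]
    rw [e1, ← h4_hom (c4 : ℚ) c6 lam t s hst, ← hX, ← hω]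
    ring
  have hXden : X.den = ω.natAbs ^ 2 := by
    have hcop' : IsCoprime (h4 c4 c6 s t) (ω ^ 2) := hVc.pow_right
    have hXe : X = ((h4 c4 c6 s t : ℤ) : ℚ) / ((ω ^ 2 : ℤ) : ℚ) := by
      rw [hXV]; push_cast
      have : (ω : ℚ) ≠ 0 := by exact_mod_cast hω0
      field_simp
    have hpos : 0 < ω ^ 2 := by positivity
    have hd : ((X.den : ℤ)) = ω ^ 2 := by
      rw [hXe]
      exact Rat.den_div_eq_of_coprime hpos (Int.isCoprime_iff_gcd_eq_one.mp hcop')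
    have : (X.den : ℤ) = ((ω.natAbs ^ 2 : ℕ) : ℤ) := by
      rw [hd]; push_cast; rw [sq_abs]
    exact_mod_cast this
  have hcop2 : IsCoprime (1728 * D) ω := by
    rw [← hωF, pow_two] at cop2
    exact cop2.of_mul_right_left
  refine ⟨x, y, nR, s, t, ω, eR, hxne, by exact_mod_cast ht0, hst, hcop, hpt, hω0, hωF, hVc, hcop2,
    ?_⟩
  rw [Pool.Agent.Y680.G.dn, hnQ]
  exact hXden

/-- the radical is small if a high power of a prime divides -/
lemma rad_gain {p J ω : ℕ} (hp : p.Prime) (hω : ω ≠ 0) (hd : p ^ (J + 1) ∣ ω) :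
    rad ω * p ^ J ≤ ω := by
  obtain ⟨ω', hω'⟩ := hd
  have hω'0 : ω' ≠ 0 := by rintro rfl; apply hω; rw [hω']; simp
  have hcV : rad ω ≤ p * ω' := by
    apply rad_le (mul_ne_zero hp.ne_zero hω'0)
    intro ℓ hℓ h3
    rw [hω'] at h3
    rcases hℓ.dvd_mul.mp h3 with h4 | h4
    · exact (hℓ.dvd_of_dvd_pow h4).mul_right _
    · exact h4.mul_left _
  calc rad ω * p ^ J ≤ (p * ω') * p ^ J := Nat.mul_le_mul_right _ hcV
    _ = ω := by rw [hω']; ring

/-- **The multiples.** For all `K`, `J`, `B` there is `m` such that `m q₁` is close to the origin, in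
the real topology and at the bad primes, and `ω` has a high power of a prime. -/
theorem exists_mult (hR : S_REAL) (h : Bse c4 c6 D) (K J : ℕ) (B : ℝ) :
    ∃ m : ℕ, 3 ≤ m ∧ mu h * (1728 * D).natAbs ^ (6 + K) ∣ m ∧ B < |(yc (m • q1 h) : ℝ)| ∧
      ∀ ω : ℕ, ω ≠ 0 → dn h (1 + 2 * m) = ω ^ 2 → rad ω * 2 ^ J ≤ ω := by
  have hDne : (1728 * D) ≠ 0 := mul_ne_zero (by norm_num) h.D0
  set H := (1728 * D).natAbs with hH
  have hH0 : H ≠ 0 := Int.natAbs_ne_zero.mpr hDne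
  obtain ⟨m0, hm0⟩ : ∃ m0, m0 = 6 * mu h * H ^ (6 + K) := ⟨_, rfl⟩
  have hm00 : m0 ≠ 0 := by
    rw [hm0]
    exact mul_ne_zero (mul_ne_zero (by norm_num) (mu_ne h)) (pow_ne_zero _ hH0)
  obtain ⟨n1, hn10, hn11, p, hp, hp1, hpd⟩ := large_prime h 1 m0 one_ne_zero hm00 m0
  rw [mul_one] at hpd
  have hpm0 : Nat.Coprime p m0 := by
    rw [hp.coprime_iff_not_dvd]
    intro h1
    have := Nat.le_of_dvd (Nat.pos_of_ne_zero hm00) h1
    omega
  have hn1m0 : Nat.Coprime n1 m0 := by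
    have := hn11.gcd_eq
    rw [Nat.gcd_one_left] at this
    exact this
  have hcop : Nat.Coprime m0 (n1 * p ^ (J + 1)) := by
    apply Nat.Coprime.symm
    exact Nat.Coprime.mul_left hn1m0 (Nat.Coprime.pow_left _ hpm0)
  have h2m0 : 2 ∣ m0 := by
    rw [hm0]
    exact ⟨3 * mu h * H ^ (6 + K), by ring⟩
  have hcop2 : Nat.Coprime 2 (n1 * p ^ (J + 1)) := Nat.Coprime.coprime_dvd_left h2m0 hcop
  -- the residue class
  set L := n1 * p ^ (J + 1) with hL
  have hL0 : L ≠ 0 := mul_ne_zero hn10 (pow_ne_zero _ hp.ne_zero)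
  obtain ⟨v, hv⟩ : ∃ v : ℕ, L ∣ 1 + 2 * v := by
    have hodd : Odd L := by
      rw [← Nat.not_even_iff_odd, even_iff_two_dvd]
      intro h2
      have := Nat.Coprime.eq_one_of_dvd hcop2 h2
      omega
    obtain ⟨v, hv⟩ := hodd
    exact ⟨v, ⟨1, by omega⟩⟩
  obtain ⟨r, hr1, hr2⟩ := Nat.chineseRemainder hcop 0 v
  obtain ⟨m, hm, hmr, hB⟩ := hR (kk c4 c6) h.kk_ne (q1 h) (q1_inf h) (m0 * L) r
    (mul_ne_zero hm00 hL0) B
  have hmm0 : m ≡ 0 [MOD m0] := (hmr.of_mul_right L).trans hr1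
  have hmL : m ≡ v [MOD L] := (hmr.of_mul_left m0).trans hr2
  have hm0d : m0 ∣ m := (Nat.modEq_zero_iff_dvd).mp hmm0
  have hm6 : 6 ≤ m := by
    have h6 : 6 ∣ m := by
      refine dvd_trans ?_ hm0d
      rw [hm0]
      exact ⟨mu h * H ^ (6 + K), by ring⟩
    exact Nat.le_of_dvd hm h6
  have hdL : L ∣ 1 + 2 * m := by
    have h1 : 1 + 2 * m ≡ 1 + 2 * v [MOD L] := (hmL.mul_left 2).add_left 1
    exact (h1.dvd_iff dvd_rfl).mpr hv
  refine ⟨m, by omega, ?_, hB, ?_⟩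
  · refine dvd_trans ?_ hm0d
    rw [hm0]
    exact ⟨6, by ring⟩
  · intro ω hω0 hdn
    obtain ⟨s, hs⟩ := hdL
    have hs0 : s ≠ 0 := by
      rintro rfl
      omega
    have hsn : 1 + 2 * m = (p ^ (J + 1) * s) * n1 := by rw [hs, hL]; ring
    have hval := dn_val h hp (n := n1) (s := p ^ (J + 1) * s) hn10
      (mul_ne_zero (pow_ne_zero _ hp.ne_zero) hs0) hpd
    have fp : Fact p.Prime := ⟨hp⟩
    rw [← hsn, hdn, padicValNat.pow ω 2, padicValNat.mul (pow_ne_zero _ hp.ne_zero) hs0,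
      padicValNat.prime_pow] at hval
    have hpow : p ^ (J + 1) ∣ ω := by
      rw [padicValNat_dvd_iff_le hω0]
      omega
    have := rad_gain hp hω0 hpow
    refine le_trans ?_ this
    exact Nat.mul_le_mul_left _ (Nat.pow_le_pow_left hp.two_le J)

end Pool.Agent.Helper80.NE
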