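import Pool.Agent.Helper80.NE.Stm

/-!
# The height and the conductor of the curves with discriminant `D ω ^ 6`
-/

set_option autoImplicit false

namespace Pool.Agent.Helper80.NE.FC

open NumberField IsDedekindDomain Finset
open Pool.Agent.H691R3 (fv fv_na fv_support_finite log_product_formula Nv log_Nv_pos)
open Pool.Agent.TH876.Loc (Pr)
open Pool.Agent.TH876.FH (GoodAt)
open Pool.Agent.Y733.FF (SemiAt fv_one_iff fv_le_one_iff)
open Pool.Agent.Q19.JL (T6 mem_T6 cw lc lc_eq cw_le cw_nonneg w_good w_T mw_of aw_of supp_cw fsum_eq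
  fsum_ge)
open Pool.Agent.Y680.G (rad rad_pos)
open Pool.Agent.Results.MP_c59389_nt.AllInvariantsAllHeights (cond faltings IsPeriod log_cond)

theorem fv_int (v : Pr ℚ) (n : ℤ) : fv v (n : ℚ) ≤ 1 := by
  rcases n.eq_nat_or_neg with ⟨m, rfl | rfl⟩
  · have := Pool.Agent.TH876.Loc.fv_natCast_le v m
    exact_mod_cast this
  · have := Pool.Agent.TH876.Loc.fv_natCast_le v m
    push_cast
    rw [(fv v).map_neg]
    exact this

theorem fv_cop {v : Pr ℚ} {a b : ℤ} (h : IsCoprime a b) (hb : fv v (b : ℚ) ≠ 1) :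
    fv v (a : ℚ) = 1 := by
  have hb' : fv v (b : ℚ) < 1 := lt_of_le_of_ne (fv_int v b) hb
  by_contra ha
  have ha' : fv v (a : ℚ) < 1 := lt_of_le_of_ne (fv_int v a) ha
  obtain ⟨x, y, hxy⟩ := h
  have h1 := fv_na v ((x : ℚ) * a) ((y : ℚ) * b)
  have e : (x : ℚ) * a + (y : ℚ) * b = 1 := by exact_mod_cast hxy
  rw [e, map_one, map_mul, map_mul] at h1
  have hx := fv_int v x
  have hy := fv_int v y
  have h2 : fv v (x : ℚ) * fv v (a : ℚ) < 1 :=
    lt_of_le_of_lt (mul_le_of_le_one_left ((fv v).nonneg _) hx) ha'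
  have h3 : fv v (y : ℚ) * fv v (b : ℚ) < 1 :=
    lt_of_le_of_lt (mul_le_of_le_one_left ((fv v).nonneg _) hy) hb'
  rcases le_max_iff.1 h1 with h | h <;> linarith

open Classical in
/-- the primes dividing `n ≠ 0` -/
noncomputable def SP (n : ℤ) : Finset (Pr ℚ) :=
  if h : (n : ℚ) ≠ 0 then (fv_support_finite h).toFinset else ∅

theorem mem_SP {n : ℤ} (hn : n ≠ 0) (v : Pr ℚ) : v ∈ SP n ↔ fv v (n : ℚ) ≠ 1 := by
  have h : (n : ℚ) ≠ 0 := by exact_mod_cast hn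
  unfold SP
  rw [dif_pos h, Set.Finite.mem_toFinset]
  rfl

theorem sum_inf {x : ℚ} : ∑ w : InfinitePlace ℚ, (w.mult : ℝ) * Real.log (w x) =
    Real.log |(x : ℝ)| := by
  have h : ∀ w : InfinitePlace ℚ, (w.mult : ℝ) * Real.log (w x) =
      (w.mult : ℝ) * Real.log |(x : ℝ)| := by
    intro w
    have : w x = |(x : ℝ)| := by
      have := Rat.infinitePlace_apply w x
      rw [this]
      push_cast
      rfl
    rw [this]
  rw [Finset.sum_congr rfl fun w _ => h w, ← Finset.sum_mul, Pool.Agent.Y729.FW.sum_mult]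
  simp

theorem sum_fv {n : ℤ} (hn : n ≠ 0) :
    ∑ v ∈ SP n, -Real.log (fv v (n : ℚ)) = Real.log |(n : ℝ)| := by
  have h : (n : ℚ) ≠ 0 := by exact_mod_cast hn
  have h1 := log_product_formula h
  rw [sum_inf, fsum_eq (SP n) (by
    intro v hv
    rw [mem_SP hn, not_not] at hv
    rw [hv, Real.log_one])] at h1
  rw [Finset.sum_neg_distrib]
  push_cast at h1
  linarith

theorem log_Nv_le {n : ℤ} (hn : n ≠ 0) {v : Pr ℚ} (hv : v ∈ SP n) :
    Real.log (Nv v) ≤ -Real.log (fv v (n : ℚ)) := by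
  rw [mem_SP hn] at hv
  have h : (n : ℚ) ≠ 0 := by exact_mod_cast hn
  have hlt : fv v (n : ℚ) < 1 := lt_of_le_of_ne (fv_int v n) hv
  have hneg : Real.log (fv v (n : ℚ)) < 0 := Real.log_neg ((fv v).pos h) hlt
  obtain ⟨a, ha⟩ := Pool.Agent.Q19.JL.log_fv_int v h
  have hl := log_Nv_pos v
  rw [ha] at hneg ⊢
  have ha0 : a ≤ -1 := by
    by_contra hcon
    have h1 : (0 : ℤ) ≤ a := by omega
    have h2 : (0 : ℝ) ≤ a := by exact_mod_cast h1
    nlinarith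
  have h2 : (a : ℝ) ≤ -1 := by exact_mod_cast ha0
  nlinarith

theorem fv_of_rad {v : Pr ℚ} {n : ℕ} (hn : n ≠ 0) (h : fv v ((rad n : ℕ) : ℚ) = 1) :
    fv v (n : ℚ) = 1 := by
  have hp : ∀ p ∈ n.primeFactors, fv v (p : ℚ) = 1 := by
    intro p hp
    have hd : p ∣ rad n := Finset.dvd_prod_of_mem (fun p : ℕ => p) hp
    obtain ⟨m, hm⟩ := hd
    rw [hm] at h
    push_cast at h
    rw [map_mul] at h
    have h1 := Pool.Agent.TH876.Loc.fv_natCast_le v p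
    have h2 := Pool.Agent.TH876.Loc.fv_natCast_le v m
    have h3 := (fv v).nonneg (p : ℚ)
    have h4 := (fv v).nonneg (m : ℚ)
    refine le_antisymm h1 ?_
    rw [← h]
    exact mul_le_of_le_one_right h3 h2
  have e : (n : ℚ) = ∏ p ∈ n.primeFactors, (p : ℚ) ^ n.factorization p := by
    have h1 := Nat.prod_factorization_pow_eq_self hn
    conv_lhs => rw [← h1]
    rw [Finsupp.prod]
    push_cast
    rfl
  rw [e, map_prod]
  refine Finset.prod_eq_one fun p hpm => ?_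
  rw [map_pow, hp p hpm, one_pow]

theorem sum_Nv {n : ℕ} (hn : n ≠ 0) :
    ∑ v ∈ SP (n : ℤ), Real.log (Nv v) ≤ Real.log (rad n) := by
  have hn' : (n : ℤ) ≠ 0 := by exact_mod_cast hn
  have hr : ((rad n : ℕ) : ℤ) ≠ 0 := by
    have := rad_pos n
    omega
  have h1 := sum_fv hr
  have e : |(((rad n : ℕ) : ℤ) : ℝ)| = (rad n : ℝ) := by
    rw [abs_of_nonneg (by positivity)]
    push_cast
    rfl
  rw [e] at h1
  rw [← h1]
  have hsub : SP (n : ℤ) ⊆ SP ((rad n : ℕ) : ℤ) := by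
    intro v hv
    rw [mem_SP hn'] at hv
    rw [mem_SP hr]
    intro h
    apply hv
    push_cast at h ⊢
    exact fv_of_rad hn h
  calc ∑ v ∈ SP (n : ℤ), Real.log (Nv v) ≤ ∑ v ∈ SP ((rad n : ℕ) : ℤ), Real.log (Nv v) :=
        Finset.sum_le_sum_of_subset_of_nonneg hsub fun v _ _ => (log_Nv_pos v).le
    _ ≤ _ := Finset.sum_le_sum fun v hv => log_Nv_le hr hv

theorem val_int (v : Pr ℚ) (n : ℤ) : v.valuation ℚ (n : ℚ) ≤ 1 := (fv_le_one_iff v).1 (fv_int v n)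

theorem cond_le {D : ℤ} (hD : D ≠ 0) {V : WeierstrassCurve ℤ} {ω : ℕ} (hω : ω ≠ 0)
    (hΔ : V.Δ = D * (ω : ℤ) ^ 6) (hc4 : IsCoprime V.c₄ (ω : ℤ))
    (hco : IsCoprime (1728 * D) (ω : ℤ)) {E : WeierstrassCurve ℚ} (hE : E.Δ ≠ 0)
    {T : WeierstrassCurve.VariableChange ℚ} (hT : T • E = V.map (Int.castRingHom ℚ)) :
    Real.log (cond E) ≤ 2 * ∑ v ∈ SP D, Real.log (Nv v) + Real.log (rad ω) := by
  classical
  have hω' : (ω : ℤ) ≠ 0 := by exact_mod_cast hω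
  have hDco : IsCoprime D (ω : ℤ) := hco.of_mul_left_right
  have hΔQ : (T • E).Δ = (D : ℚ) * (ω : ℚ) ^ 6 := by
    rw [hT, WeierstrassCurve.map_Δ, hΔ]
    simp
  have hcQ : (T • E).c₄ = (V.c₄ : ℚ) := by
    rw [hT, WeierstrassCurve.map_c₄]
    simp
  have hint : ∀ v : Pr ℚ, v.valuation ℚ (T • E).a₁ ≤ 1 ∧ v.valuation ℚ (T • E).a₂ ≤ 1 ∧
      v.valuation ℚ (T • E).a₃ ≤ 1 ∧ v.valuation ℚ (T • E).a₄ ≤ 1 ∧
      v.valuation ℚ (T • E).a₆ ≤ 1 := by
    intro v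
    rw [hT]
    exact ⟨val_int v V.a₁, val_int v V.a₂, val_int v V.a₃, val_int v V.a₄, val_int v V.a₆⟩
  have hgood : ∀ v : Pr ℚ, v ∉ SP D → v ∉ SP (ω : ℤ) → GoodAt v E := by
    intro v h1 h2
    rw [mem_SP hD, not_not] at h1
    rw [mem_SP hω', not_not] at h2
    obtain ⟨i1, i2, i3, i4, i6⟩ := hint v
    refine ⟨T, i1, i2, i3, i4, i6, ?_⟩
    rw [← fv_one_iff, hΔQ, map_mul, map_pow, h1]
    have : fv v (ω : ℚ) = 1 := by exact_mod_cast h2
    rw [this]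
    norm_num
  have hsemi : ∀ v : Pr ℚ, v ∈ SP (ω : ℤ) → SemiAt v E := by
    intro v h2
    rw [mem_SP hω'] at h2
    obtain ⟨i1, i2, i3, i4, i6⟩ := hint v
    refine ⟨T, i1, i2, i3, i4, i6, Or.inr ?_⟩
    rw [← fv_one_iff, hcQ]
    exact fv_cop hc4 h2
  rw [log_cond E hE, lc_eq E hE, fsum_eq (SP D ∪ SP (ω : ℤ)) (by
    intro v hv
    rw [Finset.mem_union, not_or] at hv
    unfold cw
    rw [(w_good (hgood v hv.1 hv.2)).1, (w_good (hgood v hv.1 hv.2)).2]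
    ring)]
  have h1 : ∑ v ∈ SP D ∪ SP (ω : ℤ), cw v E ≤
      ∑ v ∈ SP D, cw v E + ∑ v ∈ SP (ω : ℤ), cw v E := by
    rw [← Finset.sum_union_inter]
    have := Finset.sum_nonneg fun v (_ : v ∈ SP D ∩ SP (ω : ℤ)) => cw_nonneg v E
    linarith
  have h2 : ∑ v ∈ SP D, cw v E ≤ 2 * ∑ v ∈ SP D, Real.log (Nv v) := by
    rw [Finset.mul_sum]
    exact Finset.sum_le_sum fun v _ => cw_le v E
  have h3 : ∑ v ∈ SP (ω : ℤ), cw v E ≤ ∑ v ∈ SP (ω : ℤ), Real.log (Nv v) := by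
    refine Finset.sum_le_sum fun v hv => ?_
    have hl := log_Nv_pos v
    have hs := hsemi v hv
    unfold cw
    by_cases hT6 : v ∈ T6 ℚ
    · rw [(w_T hT6 E).1, (w_T hT6 E).2]
      linarith
    · by_cases hg : GoodAt v E
      · rw [(w_good hg).1, (w_good hg).2]
        linarith
      · rw [(mw_of hT6 hs hg).1, (mw_of hT6 hs hg).2]
        linarith
  have h4 := sum_Nv hω
  linarith

theorem fin_ge {D : ℤ} {V : WeierstrassCurve ℤ} {ω : ℕ} (hω : ω ≠ 0)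
    (hΔ : V.Δ = D * (ω : ℤ) ^ 6) (hc4 : IsCoprime V.c₄ (ω : ℤ))
    (hco : IsCoprime (1728 * D) (ω : ℤ)) {E : WeierstrassCurve ℚ} (hE : E.Δ ≠ 0)
    {T : WeierstrassCurve.VariableChange ℚ} (hT : T • E = V.map (Int.castRingHom ℚ)) :
    6 * Real.log ω ≤ ∑ᶠ v : Pr ℚ, Real.log (max (fv v (E.c₄ ^ 3 / E.Δ)) 1) := by
  classical
  have hω' : (ω : ℤ) ≠ 0 := by exact_mod_cast hω
  have hωQ : (ω : ℚ) ≠ 0 := by exact_mod_cast hω
  have hDco : IsCoprime D (ω : ℤ) := hco.of_mul_left_right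
  have hj : E.c₄ ^ 3 / E.Δ = (V.c₄ : ℚ) ^ 3 / ((D : ℚ) * (ω : ℚ) ^ 6) := by
    rw [Pool.Agent.Y733.FF.j_change E hE T, hT, WeierstrassCurve.map_Δ, WeierstrassCurve.map_c₄, hΔ]
    simp
  obtain ⟨j, hjj⟩ : ∃ j, j = E.c₄ ^ 3 / E.Δ := ⟨_, rfl⟩
  rw [← hjj] at hj ⊢
  have hsupp : (Function.support fun v : Pr ℚ => Real.log (max (fv v j) 1)).Finite := by
    by_cases h0 : j = 0
    · convert Set.finite_empty
      rw [Function.support_eq_empty_iff]
      funext v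
      rw [h0, map_zero, max_eq_right zero_le_one, Real.log_one]
      rfl
    · refine (fv_support_finite h0).subset ?_
      intro v hv
      rw [Function.mem_support] at hv
      intro h
      apply hv
      rw [h, max_self, Real.log_one]
  refine le_trans ?_ (fsum_ge hsupp (fun v => Real.log_nonneg (le_max_right _ _)) (SP (ω : ℤ)))
  have h1 := sum_fv hω'
  have e : |((ω : ℤ) : ℝ)| = (ω : ℝ) := by
    rw [abs_of_nonneg (by positivity)]
    push_cast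
    rfl
  rw [e] at h1
  rw [← h1, Finset.mul_sum]
  refine Finset.sum_le_sum fun v hv => ?_
  rw [mem_SP hω'] at hv
  have k1 := fv_cop hc4 hv
  have k2 := fv_cop hDco hv
  have hpos : 0 < fv v (ω : ℚ) := (fv v).pos hωQ
  have hle : fv v (ω : ℚ) ≤ 1 := Pool.Agent.TH876.Loc.fv_natCast_le v ω
  have hjv : fv v j = (fv v (ω : ℚ) ^ 6)⁻¹ := by
    rw [hj, map_div₀, map_mul, map_pow, map_pow, k1, k2]
    norm_num
  have hlog : Real.log (max (fv v j) 1) = 6 * -Real.log (fv v (ω : ℚ)) := by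
    rw [max_eq_left, hjv, Real.log_inv, Real.log_pow]
    · push_cast
      ring
    · rw [hjv]
      exact (one_le_inv₀ (pow_pos hpos 6)).2 (pow_le_one₀ hpos.le hle)
  rw [hlog]
  push_cast
  exact le_refl _

theorem main : S_FC := by
  intro D hD
  obtain ⟨c, hc, harch⟩ := Pool.Agent.Q19.JL.arch_ge
  refine ⟨∑ v ∈ SP D, Real.log (Nv v) + c / 12, ?_⟩
  intro V ω hω hΔ hc4 hco hΔ0 E T hT τ _
  have hTE : (T • E).Δ ≠ 0 := by
    rw [hT, WeierstrassCurve.map_Δ]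
    intro h
    apply hΔ0
    simpa using h
  have hE : E.Δ ≠ 0 := by
    intro h
    apply hTE
    rw [WeierstrassCurve.variableChange_Δ, h, mul_zero]
  have h1 := cond_le hD hω hΔ hc4 hco hE hT
  have h2 := fin_ge hω hΔ hc4 hco hE hT
  have h3 := harch ℚ τ
  have hfr : (Module.finrank ℚ ℚ : ℝ) = 1 := by
    rw [Module.finrank_self]
    norm_num
  rw [hfr, mul_one] at h3
  have hf : faltings (E.c₄ ^ 3 / E.Δ) τ =
      (∑ᶠ v : Pr ℚ, Real.log (max (fv v (E.c₄ ^ 3 / E.Δ)) 1) +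
        ∑ w : InfinitePlace ℚ, (w.mult : ℝ) * Pool.Agent.TH876.FH.arch (τ w)) /
          (12 * (Module.finrank ℚ ℚ : ℝ)) := rfl
  have hr : (0 : ℝ) < rad ω := by exact_mod_cast rad_pos ω
  have hω0 : (0 : ℝ) < ω := by exact_mod_cast Nat.pos_of_ne_zero hω
  rw [hf, hfr, Real.log_div hω0.ne' hr.ne', le_div_iff₀ (by norm_num)]
  linarith

end Pool.Agent.Helper80.NE.FC
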