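import Pool.Agent.Helper80.NE.Stm

/-!
# The multiples of a point come close to the origin (real topology)
-/

set_option autoImplicit false

open WeierstrassCurve

namespace Pool.Agent.Helper80.NE

open Pool.Agent.TH942 Pool.Agent.Y680.M Pool.Agent.Y680.G

variable {k : ℚ}

lemma exists_cbrt : ∃ c : ℝ → ℝ, Continuous c ∧ ∀ t, c t ^ 3 = t := by
  have hm : StrictMono (fun x : ℝ => x ^ 3) := Odd.strictMono_pow (by decide)
  have hs : Function.Surjective (fun x : ℝ => x ^ 3) := by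
    intro t
    rcases le_total 0 t with h | h
    · refine ⟨t ^ ((1 : ℝ) / 3), ?_⟩
      simp only
      rw [← Real.rpow_natCast, ← Real.rpow_mul h]
      norm_num
    · refine ⟨-((-t) ^ ((1 : ℝ) / 3)), ?_⟩
      have h' : 0 ≤ -t := by linarith
      have e : ((-t) ^ ((1 : ℝ) / 3)) ^ 3 = -t := by
        rw [← Real.rpow_natCast, ← Real.rpow_mul h']
        norm_num
      simp only
      rw [neg_pow, e]
      norm_num
  let e := hm.orderIsoOfSurjective _ hs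
  exact ⟨e.symm, e.symm.continuous, fun t => e.apply_symm_apply t⟩

lemma cube_le {a b : ℝ} : |a - b| ^ 3 ≤ 4 * |a ^ 3 - b ^ 3| := by
  have e : a ^ 3 - b ^ 3 = (a - b) * (a ^ 2 + a * b + b ^ 2) := by ring
  have h : (a - b) ^ 2 / 4 ≤ a ^ 2 + a * b + b ^ 2 := by nlinarith [sq_nonneg (a + b)]
  have h0 : 0 ≤ a ^ 2 + a * b + b ^ 2 := le_trans (by positivity) h
  rw [e, abs_mul, abs_of_nonneg h0]
  calc |a - b| ^ 3 = |a - b| * |a - b| ^ 2 := by ring
    _ = |a - b| * (a - b) ^ 2 := by rw [sq_abs]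
    _ ≤ |a - b| * (4 * (a ^ 2 + a * b + b ^ 2)) :=
        mul_le_mul_of_nonneg_left (by linarith) (abs_nonneg _)
    _ = 4 * (|a - b| * (a ^ 2 + a * b + b ^ 2)) := by ring

/-- coordinates -/
lemma eqn_of {x y : ℚ} (n : (sw (0 : ℚ) k).toAffine.Nonsingular x y) : y ^ 2 = x ^ 3 + k := by
  have := (sw_short k).eqn.mp n.1
  rw [this]
  change x ^ 3 + 0 * x + k = _
  ring

lemma eqn_pt (P : SPt (0 : ℚ) k) (hP : P ≠ 0) : (yc P : ℝ) ^ 2 = (xc P : ℝ) ^ 3 + (k : ℝ) := by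
  match P, hP with
  | .some x y n, _ =>
    change (y : ℝ) ^ 2 = (x : ℝ) ^ 3 + k
    exact_mod_cast eqn_of n

lemma x_le {x y B κ : ℝ} (hB : |y| ≤ B) (h : y ^ 2 = x ^ 3 + κ) : |x| ≤ B ^ 2 + |κ| + 1 := by
  have hB0 : 0 ≤ B := (abs_nonneg _).trans hB
  have hy : y ^ 2 ≤ B ^ 2 := by rw [← sq_abs]; exact pow_le_pow_left₀ (abs_nonneg _) hB 2
  rcases le_total |x| 1 with h1 | h1
  · have := abs_nonneg κ
    have := sq_nonneg B
    linarith
  · have h3 : |x| ≤ |x| ^ 3 := le_self_pow₀ h1 (by norm_num)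
    have h4 : |x| ^ 3 = |y ^ 2 - κ| := by rw [← abs_pow, h]; congr 1; ring
    have h5 : |y ^ 2 - κ| ≤ |y ^ 2| + |κ| := abs_sub _ _
    rw [abs_of_nonneg (sq_nonneg y)] at h5
    linarith

/-- the chord data of a sum that is not zero -/
lemma sum_data (P Q : SPt (0 : ℚ) k) (hP : P ≠ 0) (hQ : Q ≠ 0) (hs : P + Q ≠ 0) :
    ∃ l : ℝ, l * (yc P + yc Q) = (xc P : ℝ) ^ 2 + xc P * xc Q + (xc Q : ℝ) ^ 2 ∧
      (yc P : ℝ) - yc Q = l * (xc P - xc Q) ∧
      (xc (P + Q) : ℝ) = l ^ 2 - xc P - xc Q ∧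
      (yc (P + Q) : ℝ) = -(l * (xc (P + Q) - xc P) + yc P) := by
  have n2 : NeZero (2 : ℚ) := ⟨by norm_num⟩
  match P, Q, hP, hQ with
  | .some x1 y1 p1, .some x2 y2 p2, _, _ =>
    have hne : ¬(x1 = x2 ∧ y1 = -y2) := by
      rintro ⟨e1, e2⟩
      apply hs
      apply Affine.Point.add_of_Y_eq e1
      rw [(sw_short k).negY]; exact e2
    obtain ⟨l, hn, hch, hsum⟩ := (sw_short k).add_some p1 p2 hne
    rw [hsum]
    refine ⟨l, ?_, ?_, ?_, ?_⟩
    · change (l : ℝ) * (y1 + y2) = (x1 : ℝ) ^ 2 + x1 * x2 + (x2 : ℝ) ^ 2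
      have h1 : l * (y1 + y2) = x1 ^ 2 + x1 * x2 + x2 ^ 2 + 0 := hch.h1
      rw [add_zero] at h1
      exact_mod_cast h1
    · change (y1 : ℝ) - y2 = l * (x1 - x2)
      exact_mod_cast hch.h2
    · change ((l ^ 2 - x1 - x2 : ℚ) : ℝ) = (l : ℝ) ^ 2 - x1 - x2
      push_cast; ring
    · change ((-(l * (l ^ 2 - x1 - x2 - x1) + y1) : ℚ) : ℝ) =
        -((l : ℝ) * (((l ^ 2 - x1 - x2 : ℚ) : ℝ) - x1) + y1)
      push_cast; ring

lemma yc_neg (P : SPt (0 : ℚ) k) : yc (-P) = - yc P := by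
  match P with
  | 0 => change (0 : ℚ) = -0; ring
  | .some x y n =>
    rw [(sw_short k).neg_some n ((sw_short k).nonsing_neg n)]
    rfl

lemma xc_neg (P : SPt (0 : ℚ) k) : xc (-P) = xc P := by
  match P with
  | 0 => rfl
  | .some x y n =>
    rw [(sw_short k).neg_some n ((sw_short k).nonsing_neg n)]
    rfl

/-- the multiples of a point of infinite order are unbounded -/
lemma near_y (hk : k ≠ 0) (P : SPt (0 : ℚ) k) (hP : ∀ n : ℕ, n ≠ 0 → n • P ≠ 0) (B : ℝ) :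
    ∃ w : ℕ, 0 < w ∧ B < |(yc (w • P) : ℝ)| := by
  by_contra hcon
  push Not at hcon
  have hkr : (0 : ℝ) < |(k : ℝ)| := abs_pos.mpr (by exact_mod_cast hk)
  set Y : ℕ → ℝ := fun w => (yc (w • P) : ℝ) with hY
  set X : ℕ → ℝ := fun w => (xc (w • P) : ℝ) with hX
  have hB0 : 0 ≤ B := (abs_nonneg _).trans (hcon 1 one_pos)
  set M := B ^ 2 + |(k : ℝ)| + 1 with hM
  have hM1 : 1 ≤ M := by
    have := sq_nonneg B
    rw [hM]; linarith
  have eq : ∀ w, 0 < w → Y w ^ 2 = X w ^ 3 + k := fun w hw => eqn_pt _ (hP w hw.ne')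
  have hXM : ∀ w, 0 < w → |X w| ≤ M := fun w hw => x_le (hcon w hw) (eq w hw)
  -- lower bound for the ordinates
  set ξ := min 1 (|(k : ℝ)| / 2) with hξ
  have hξ0 : 0 < ξ := lt_min one_pos (by positivity)
  have hξ1 : ξ ≤ 1 := min_le_left _ _
  have hξ3 : ξ ^ 3 ≤ |(k : ℝ)| / 2 := by
    calc ξ ^ 3 ≤ ξ ^ 1 := pow_le_pow_of_le_one hξ0.le hξ1 (by norm_num)
      _ = ξ := pow_one _
      _ ≤ _ := min_le_right _ _
  set η2 := min (|(k : ℝ)| / 2) (3 / 4 * ξ ^ 4 / M) with hη2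
  have hη0 : 0 < η2 := lt_min (by positivity) (by positivity)
  have hlow : ∀ w, 0 < w → η2 ≤ Y w ^ 2 := by
    intro w hw
    have h2 : 0 < 2 * w := by omega
    have hs : (w • P) + (w • P) = (2 * w) • P := by rw [two_mul, add_smul]
    obtain ⟨l, e1, -, e3, -⟩ := sum_data (w • P) (w • P) (hP w hw.ne') (hP w hw.ne')
      (by rw [hs]; exact hP _ h2.ne')
    rw [hs] at e3
    have e1' : l * (2 * Y w) = 3 * X w ^ 2 := by
      simp only [hY, hX]; linear_combination e1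
    have e3' : X (2 * w) = l ^ 2 - 2 * X w := by
      simp only [hX]; linear_combination e3
    have hl : l ^ 2 ≤ 3 * M := by
      have a1 := (abs_le.mp (hXM (2 * w) h2)).2
      have a2 := (abs_le.mp (hXM w hw)).2
      linarith
    rcases le_total ξ |X w| with hx | hx
    · refine (min_le_right _ _).trans ?_
      rw [div_le_iff₀ (by linarith)]
      have h4 : ξ ^ 4 ≤ X w ^ 4 := by
        calc ξ ^ 4 ≤ |X w| ^ 4 := pow_le_pow_left₀ hξ0.le hx 4
          _ = X w ^ 4 := by rw [← abs_pow, abs_of_nonneg (by positivity)]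
      have h5 : 9 * X w ^ 4 = 4 * (l ^ 2 * Y w ^ 2) := by
        calc 9 * X w ^ 4 = (3 * X w ^ 2) ^ 2 := by ring
          _ = (l * (2 * Y w)) ^ 2 := by rw [e1']
          _ = _ := by ring
      have h6 : l ^ 2 * Y w ^ 2 ≤ 3 * M * Y w ^ 2 := mul_le_mul_of_nonneg_right hl (sq_nonneg _)
      nlinarith
    · refine (min_le_left _ _).trans ?_
      have h3 : |X w ^ 3| ≤ |(k : ℝ)| / 2 := by
        rw [abs_pow]
        exact (pow_le_pow_left₀ (abs_nonneg _) hx 3).trans hξ3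
      have h4 := abs_le.mp h3
      have h5 := eq w hw
      rcases le_total 0 (k : ℝ) with hk0 | hk0
      · rw [abs_of_nonneg hk0] at h4 ⊢
        linarith
      · rw [abs_of_nonpos hk0] at h4 ⊢
        have := sq_nonneg (Y w)
        have hkn : (k : ℝ) < 0 := lt_of_le_of_ne hk0 (by exact_mod_cast hk)
        nlinarith
  -- pigeonhole
  obtain ⟨ρ, hρ⟩ : ∃ ρ, ρ = Real.sqrt (η2 / M) := ⟨_, rfl⟩
  have hρ0 : 0 < ρ := by rw [hρ]; exact Real.sqrt_pos.mpr (by positivity)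
  have hρ2 : ρ ^ 2 = η2 / M := by rw [hρ]; exact Real.sq_sqrt (by positivity)
  obtain ⟨δ, hδ0, hδ1, hδ2⟩ : ∃ δ : ℝ, 0 < δ ∧ δ ^ 2 ≤ η2 ∧ 8 * B * δ < ρ ^ 3 := by
    refine ⟨min (Real.sqrt η2) (ρ ^ 3 / (8 * B + 1)), lt_min (Real.sqrt_pos.mpr hη0) (by positivity),
      ?_, ?_⟩
    · have h1 : min (Real.sqrt η2) (ρ ^ 3 / (8 * B + 1)) ≤ Real.sqrt η2 := min_le_left _ _
      calc _ ≤ Real.sqrt η2 ^ 2 := pow_le_pow_left₀
            (le_min (Real.sqrt_nonneg _) (by positivity)) h1 2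
        _ = η2 := Real.sq_sqrt hη0.le
    · have h1 : min (Real.sqrt η2) (ρ ^ 3 / (8 * B + 1)) ≤ ρ ^ 3 / (8 * B + 1) := min_le_right _ _
      have h2 : 8 * B * (ρ ^ 3 / (8 * B + 1)) < ρ ^ 3 := by
        rw [mul_div_assoc', div_lt_iff₀ (by positivity)]
        have : 0 < ρ ^ 3 := by positivity
        nlinarith
      exact lt_of_le_of_lt (mul_le_mul_of_nonneg_left h1 (by positivity)) h2
  obtain ⟨w1, w2, hw1, hlt, hclose⟩ : ∃ w1 w2 : ℕ, 0 < w1 ∧ w1 < w2 ∧ |Y w2 - Y w1| < δ := by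
    set N : ℤ := ⌈B / δ⌉ + 1 with hN
    have hmaps : Set.MapsTo (fun w : ℕ => ⌊Y (w + 1) / δ⌋) Set.univ (Set.Icc (-N) N) := by
      intro w _
      have h1 := abs_le.mp (hcon (w + 1) (Nat.succ_pos w))
      have h2 : Y (w + 1) / δ ≤ B / δ := div_le_div_of_nonneg_right h1.2 hδ0.le
      have h3 : -(B / δ) ≤ Y (w + 1) / δ := by
        rw [← neg_div]; exact div_le_div_of_nonneg_right h1.1 hδ0.le
      have h4 : B / δ ≤ (⌈B / δ⌉ : ℝ) := Int.le_ceil _
      constructor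
      · rw [Int.le_floor, hN]; push_cast; linarith
      · have : (⌊Y (w + 1) / δ⌋ : ℝ) ≤ (N : ℝ) := by
          refine (Int.floor_le _).trans ?_
          rw [hN]; push_cast; linarith
        exact_mod_cast this
    obtain ⟨a, -, b, -, hab, he⟩ := Set.infinite_univ.exists_ne_map_eq_of_mapsTo hmaps
      (Set.finite_Icc _ _)
    have key : ∀ a b : ℕ, ⌊Y (a + 1) / δ⌋ = ⌊Y (b + 1) / δ⌋ → |Y (b + 1) - Y (a + 1)| < δ := by
      intro a b he
      have h := Int.abs_sub_lt_one_of_floor_eq_floor he.symm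
      rw [← sub_div, abs_div, abs_of_pos hδ0, div_lt_one hδ0] at h
      exact h
    rcases lt_or_gt_of_ne hab with h | h
    · exact ⟨a + 1, b + 1, Nat.succ_pos a, by omega, key a b he⟩
    · exact ⟨b + 1, a + 1, Nat.succ_pos b, by omega, key b a he.symm⟩
  have hD : 0 < w2 - w1 := by omega
  have hw2 : 0 < w2 := by omega
  have hs : (w2 • P) + (-(w1 • P)) = (w2 - w1) • P := by
    have : w2 • P = (w2 - w1) • P + w1 • P := by rw [← add_smul]; congr 1; omega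
    rw [this, add_neg_cancel_right]
  obtain ⟨l, e1, e2, e3, -⟩ := sum_data (w2 • P) (-(w1 • P)) (hP _ hw2.ne')
    (neg_ne_zero.mpr (hP _ hw1.ne')) (by rw [hs]; exact hP _ hD.ne')
  rw [hs, xc_neg] at e3
  rw [xc_neg, yc_neg] at e2
  push_cast at e2
  have e2' : Y w2 + Y w1 = l * (X w2 - X w1) := by simp only [hY, hX]; linear_combination e2
  have e3' : X (w2 - w1) = l ^ 2 - X w2 - X w1 := e3
  have hl : l ^ 2 ≤ 3 * M := by
    have a1 := (abs_le.mp (hXM _ hD)).2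
    have a2 := (abs_le.mp (hXM _ hw1)).2
    have a3 := (abs_le.mp (hXM _ hw2)).2
    linarith
  have c1 := hlow w1 hw1
  have c2 := hlow w2 hw2
  have hcl2 : (Y w2 - Y w1) ^ 2 ≤ δ ^ 2 := by
    rw [← sq_abs]; exact pow_le_pow_left₀ (abs_nonneg _) hclose.le 2
  have h3η : 3 * η2 ≤ (Y w2 + Y w1) ^ 2 := by nlinarith
  have h4 : 3 * η2 ≤ 3 * M * (X w2 - X w1) ^ 2 := by
    calc 3 * η2 ≤ (l * (X w2 - X w1)) ^ 2 := by rw [← e2']; exact h3η
      _ = l ^ 2 * (X w2 - X w1) ^ 2 := by ring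
      _ ≤ _ := mul_le_mul_of_nonneg_right hl (sq_nonneg _)
  have h5 : ρ ^ 2 ≤ (X w2 - X w1) ^ 2 := by
    rw [hρ2, div_le_iff₀ (by linarith)]; linarith
  have h6 : ρ ≤ |X w2 - X w1| := by
    have := sq_le_sq.mp h5
    rwa [abs_of_pos hρ0] at this
  have h7 : ρ ^ 3 ≤ 8 * B * δ := by
    calc ρ ^ 3 ≤ |X w2 - X w1| ^ 3 := pow_le_pow_left₀ hρ0.le h6 3
      _ ≤ 4 * |X w2 ^ 3 - X w1 ^ 3| := cube_le
      _ = 4 * (|Y w2 + Y w1| * |Y w2 - Y w1|) := by
          have : X w2 ^ 3 - X w1 ^ 3 = (Y w2 + Y w1) * (Y w2 - Y w1) := by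
            linear_combination (eq w1 hw1) - (eq w2 hw2)
          rw [this, abs_mul]
      _ ≤ 4 * ((2 * B) * δ) := by
          have h8 : |Y w2 + Y w1| ≤ 2 * B := by
            calc _ ≤ |Y w2| + |Y w1| := abs_add_le _ _
              _ ≤ B + B := add_le_add (hcon _ hw2) (hcon _ hw1)
              _ = 2 * B := by ring
          have := mul_le_mul h8 hclose.le (abs_nonneg _) (by positivity)
          linarith
      _ = 8 * B * δ := by ring
  linarith

/-- the translate of a real point never has the same ordinate -/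
lemma no_fix {κ x y X Y l x3 y3 : ℝ} (hκ : κ ≠ 0) (e : y ^ 2 = x ^ 3 + κ) (E : Y ^ 2 = X ^ 3 + κ)
    (hne : X - x ≠ 0) (h2 : l * (X - x) = Y - y) (h3 : x3 = l ^ 2 - X - x)
    (h4 : y3 = -(l * (x3 - X) + Y)) : y3 ≠ y := by
  intro hy
  have h1 : l * (Y + y) = X ^ 2 + X * x + x ^ 2 := by
    apply mul_left_cancel₀ hne
    linear_combination (Y + y) * h2 + E - e
  have hF : x3 ^ 3 + κ = y3 ^ 2 := by
    have hG : x ^ 2 + x * X + X ^ 2 - l ^ 2 * (x - X) - 2 * l * Y = 0 := by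
      linear_combination (-1 : ℝ) * h1 + l * h2
    rw [h4, h3]
    linear_combination (l ^ 2 - X - x - X) * hG + (-1 : ℝ) * E
  have hx : x3 = x := by
    apply (Odd.strictMono_pow (by decide : Odd 3)).injective
    change x3 ^ 3 = x ^ 3
    have : y3 ^ 2 = y ^ 2 := by rw [hy]
    linarith
  have hy0 : y = 0 := by
    rw [hx] at h4
    linarith
  rw [hy0] at h1 h2
  have h5 : l ^ 2 = X + 2 * x := by linarith
  have h6 : 3 * x ^ 2 = 0 := by
    have : l ^ 2 * (X - x) = X ^ 2 + X * x + x ^ 2 := by linear_combination l * h2 + h1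
    rw [h5] at this
    linarith
  have hx0 : x = 0 := by
    have : x ^ 2 = 0 := by linarith
    exact pow_eq_zero_iff (two_ne_zero) |>.mp this
  apply hκ
  rw [hx0, hy0] at e
  linarith

theorem real_main : S_REAL := by
  intro k hk P hP L r hL B
  by_contra hcon
  push Not at hcon
  have hkr : (k : ℝ) ≠ 0 := by exact_mod_cast hk
  obtain ⟨n0, hn0⟩ : ∃ n0, n0 = r + L := ⟨_, rfl⟩
  have hn0p : 0 < n0 := by omega
  have hr0 : n0 ≡ r [MOD L] := by rw [hn0]; exact Nat.add_modEq_right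
  have hB0 : 0 ≤ B := (abs_nonneg _).trans (hcon n0 hn0p hr0)
  set M := B ^ 2 + |(k : ℝ)| + 1 with hM
  have hM1 : 1 ≤ M := by
    have := sq_nonneg B
    have := abs_nonneg (k : ℝ)
    rw [hM]; linarith
  have hPL : ∀ n : ℕ, n ≠ 0 → n • (L • P) ≠ 0 := by
    intro n hn
    rw [smul_smul]
    exact hP _ (mul_ne_zero hn hL)
  obtain ⟨w, hw, hYw⟩ := near_y hk (L • P) hPL (M ^ 3 + |(k : ℝ)| + 1)
  rw [smul_smul] at hYw
  set q := w * L with hq
  have hq0 : 0 < q := Nat.mul_pos hw (Nat.pos_of_ne_zero hL)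
  obtain ⟨Xh, hXh⟩ : ∃ X : ℝ, X = (xc (q • P) : ℝ) := ⟨_, rfl⟩
  obtain ⟨Yh, hYh⟩ : ∃ Y : ℝ, Y = (yc (q • P) : ℝ) := ⟨_, rfl⟩
  have hE : Yh ^ 2 = Xh ^ 3 + k := by rw [hXh, hYh]; exact eqn_pt _ (hP q hq0.ne')
  rw [← hYh] at hYw
  have hXM : M < Xh := by
    have h1 : M ^ 3 + |(k : ℝ)| + 1 < Yh ^ 2 := by
      have h0 : 1 ≤ M ^ 3 + |(k : ℝ)| + 1 := by
        have := abs_nonneg (k : ℝ)
        have : 0 < M ^ 3 := by positivity
        linarith
      calc M ^ 3 + |(k : ℝ)| + 1 ≤ (M ^ 3 + |(k : ℝ)| + 1) ^ 2 := le_self_pow₀ h0 (by norm_num)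
        _ < |Yh| ^ 2 := pow_lt_pow_left₀ hYw (by linarith) (by norm_num)
        _ = Yh ^ 2 := sq_abs _
    have h2 : M ^ 3 < Xh ^ 3 := by
      have := le_abs_self (k : ℝ)
      linarith
    exact (Odd.strictMono_pow (by decide : Odd 3)).lt_iff_lt.mp h2
  obtain ⟨c, hc, hc3⟩ := exists_cbrt
  set f : ℝ → ℝ := fun y => -(((Yh - y) / (Xh - c (y ^ 2 - k))) *
    (((Yh - y) / (Xh - c (y ^ 2 - k))) ^ 2 - Xh - c (y ^ 2 - k) - Xh) + Yh) - y with hf
  have hcM : ∀ y ∈ Set.Icc (-B) B, |c (y ^ 2 - k)| ≤ M := by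
    intro y hy
    exact x_le (abs_le.mpr hy) (by rw [hc3]; ring)
  have hne : ∀ y ∈ Set.Icc (-B) B, Xh - c (y ^ 2 - k) ≠ 0 := by
    intro y hy
    have := (abs_le.mp (hcM y hy)).2
    linarith
  have hcont : ContinuousOn f (Set.Icc (-B) B) := by
    have hcc : ContinuousOn (fun y : ℝ => c (y ^ 2 - k)) (Set.Icc (-B) B) :=
      (hc.comp (by fun_prop)).continuousOn
    have hl : ContinuousOn (fun y : ℝ => (Yh - y) / (Xh - c (y ^ 2 - k))) (Set.Icc (-B) B) :=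
      ContinuousOn.div (by fun_prop) (continuousOn_const.sub hcc) hne
    exact (((hl.mul ((((hl.pow 2).sub continuousOn_const).sub hcc).sub continuousOn_const)).add
      continuousOn_const).neg).sub continuousOn_id
  have hf0 : ∀ y ∈ Set.Icc (-B) B, f y ≠ 0 := by
    intro y hy h0
    refine no_fix (κ := k) (x := c (y ^ 2 - k)) (y := y) hkr (by rw [hc3]; ring) hE (hne y hy)
      (l := (Yh - y) / (Xh - c (y ^ 2 - k))) (div_mul_cancel₀ _ (hne y hy)) rfl rfl ?_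
    exact sub_eq_zero.mp h0
  have hsign : ∃ s : ℝ, (s = 1 ∨ s = -1) ∧ ∀ y ∈ Set.Icc (-B) B, 0 < s * f y := by
    by_contra hs
    push Not at hs
    obtain ⟨y1, hy1, h1⟩ := hs 1 (Or.inl rfl)
    obtain ⟨y2, hy2, h2⟩ := hs (-1) (Or.inr rfl)
    have := isPreconnected_Icc.intermediate_value hy1 hy2 hcont
    obtain ⟨y, hy, h0⟩ := this (show (0 : ℝ) ∈ Set.Icc (f y1) (f y2) from ⟨by linarith, by linarith⟩)
    exact hf0 y hy h0
  obtain ⟨s, hs1, hs⟩ := hsign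
  obtain ⟨ε, hε, hεf⟩ : ∃ ε : ℝ, 0 < ε ∧ ∀ y ∈ Set.Icc (-B) B, ε ≤ s * f y := by
    obtain ⟨y0, hy0, hmin⟩ := isCompact_Icc.exists_isMinOn (Set.nonempty_Icc.mpr (by linarith))
      (continuousOn_const.mul hcont : ContinuousOn (fun y => s * f y) (Set.Icc (-B) B))
    exact ⟨s * f y0, hs y0 hy0, fun y hy => hmin hy⟩
  set Q : ℕ → SPt (0 : ℚ) k := fun j => (n0 + j * q) • P with hQ
  have hQn : ∀ j, Q j ≠ 0 := fun j => hP _ (by omega)
  have hQB : ∀ j, |(yc (Q j) : ℝ)| ≤ B := by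
    intro j
    apply hcon _ (by omega)
    calc n0 + j * q ≡ n0 + 0 [MOD L] := by
          apply Nat.ModEq.add_left
          apply (Nat.modEq_zero_iff_dvd).mpr
          rw [hq]
          exact ⟨j * w, by ring⟩
      _ = n0 := rfl
      _ ≡ r [MOD L] := hr0
  have hstep : ∀ j, (yc (Q (j + 1)) : ℝ) = yc (Q j) + f (yc (Q j)) := by
    intro j
    have hsum : q • P + Q j = Q (j + 1) := by
      simp only [hQ]
      rw [← add_smul]
      congr 1
      ring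
    obtain ⟨l, -, e2, e3, e4⟩ := sum_data (q • P) (Q j) (hP q hq0.ne') (hQn j)
      (by rw [hsum]; exact hQn _)
    rw [hsum, ← hXh] at e3
    rw [hsum, ← hXh, ← hYh] at e4
    rw [← hXh, ← hYh] at e2
    have hyB := abs_le.mp (hQB j)
    have hcx : c ((yc (Q j) : ℝ) ^ 2 - k) = (xc (Q j) : ℝ) := by
      apply (Odd.strictMono_pow (by decide : Odd 3)).injective
      change c ((yc (Q j) : ℝ) ^ 2 - k) ^ 3 = (xc (Q j) : ℝ) ^ 3
      rw [hc3]
      have := eqn_pt (Q j) (hQn j)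
      linarith
    have hnej := hne _ hyB
    rw [hcx] at hnej
    have hl : l = (Yh - yc (Q j)) / (Xh - xc (Q j)) := by
      rw [eq_div_iff hnej]; exact e2.symm
    simp only [hf]
    rw [hcx, ← hl, e4, e3]
    ring
  have hgrow : ∀ j : ℕ, s * (yc (Q 0) : ℝ) + j * ε ≤ s * (yc (Q j) : ℝ) := by
    intro j
    induction j with
    | zero => simp
    | succ j ih =>
      have h1 := hεf _ (abs_le.mp (hQB j))
      rw [hstep j]
      push_cast
      linarith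
  have hsB : ∀ j, |s * (yc (Q j) : ℝ)| ≤ B := by
    intro j
    rw [abs_mul]
    have : |s| = 1 := by rcases hs1 with h | h <;> rw [h] <;> norm_num
    rw [this, one_mul]
    exact hQB j
  obtain ⟨j, hj⟩ := exists_nat_gt (2 * B / ε)
  rw [div_lt_iff₀ hε] at hj
  have g1 := hgrow j
  have g2 := (abs_le.mp (hsB j)).2
  have g3 := (abs_le.mp (hsB 0)).1
  linarith

end Pool.Agent.Helper80.NE
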