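import Pool.Agent.Helper80.NE.Cl
import Pool.Agent.Helper80.NE.Rl
import Pool.Agent.Helper80.NE.FC
import Pool.Agent.Helper80.NE.WA
import Pool.Graph.R_seed8.Y729.FW.Surj

/-!
# Curves close to given local curves
-/

set_option autoImplicit false

open WeierstrassCurve NumberField IsDedekindDomain

namespace Pool.Agent.Helper80.NE

open Pool.Agent.TH942 Pool.Agent.Y680.M Pool.Agent.Y680.G
open Pool.Agent.Results.MP_c59389_nt.AllInvariantsAllHeights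

/-- good real parameters close to given ones -/
lemma good_real (α β ε : ℝ) (hε : 0 < ε) : ∃ α₁ β₁ δ : ℝ, 0 < δ ∧ |α₁ - α| < ε ∧ |β₁ - β| < ε ∧
    ∀ x y : ℝ, |x - α₁| < δ → |y - β₁| < δ → x ≠ 0 ∧ y ≠ 0 ∧ 4 * x ^ 3 + 27 * y ^ 2 ≠ 0 ∧
      x ^ 3 + 6 * y ^ 2 ≠ 0 ∧ x ^ 3 + 9 * y ^ 2 ≠ 0 := by
  classical
  obtain ⟨α₁, hα1, hα2⟩ : ∃ α₁ : ℝ, α₁ ≠ 0 ∧ |α₁ - α| < ε := by
    by_cases h : α = 0
    · refine ⟨ε / 2, by positivity, ?_⟩
      rw [h, sub_zero, abs_of_pos (by positivity)]; linarith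
    · exact ⟨α, h, by simpa using hε⟩
  let T : Finset ℝ := {0, Real.sqrt (-(4 * α₁ ^ 3) / 27), -Real.sqrt (-(4 * α₁ ^ 3) / 27),
    Real.sqrt (-α₁ ^ 3 / 6), -Real.sqrt (-α₁ ^ 3 / 6), Real.sqrt (-α₁ ^ 3 / 9),
    -Real.sqrt (-α₁ ^ 3 / 9)}
  obtain ⟨β₁, hβ, hβT⟩ := (Set.Ioo_infinite (show β < β + ε by linarith)).exists_notMem_finset T
  have hβ2 : |β₁ - β| < ε := by
    rw [abs_of_pos (by linarith [hβ.1])]
    linarith [hβ.2]
  simp only [T, Finset.mem_insert, Finset.mem_singleton, not_or] at hβT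
  obtain ⟨t0, t1, t2, t3, t4, t5, t6⟩ := hβT
  have hs : ∀ c : ℝ, β₁ ≠ Real.sqrt c → β₁ ≠ -Real.sqrt c → β₁ ^ 2 ≠ c := by
    intro c h1 h2 h
    have hc : 0 ≤ c := by rw [← h]; positivity
    have h3 : β₁ ^ 2 = Real.sqrt c ^ 2 := by rw [Real.sq_sqrt hc]; exact h
    rcases sq_eq_sq_iff_eq_or_eq_neg.mp h3 with h4 | h4
    · exact h1 h4
    · exact h2 h4
  have u1 := hs _ t1 t2
  have u2 := hs _ t3 t4
  have u3 := hs _ t5 t6
  let F : ℝ × ℝ → ℝ := fun z => z.1 * z.2 * (4 * z.1 ^ 3 + 27 * z.2 ^ 2) * (z.1 ^ 3 + 6 * z.2 ^ 2) *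
    (z.1 ^ 3 + 9 * z.2 ^ 2)
  have hF : Continuous F := by simp only [F]; fun_prop
  have hF0 : F (α₁, β₁) ≠ 0 := by
    simp only [F]
    refine mul_ne_zero (mul_ne_zero (mul_ne_zero (mul_ne_zero hα1 t0) ?_) ?_) ?_
    · intro h; apply u1; linarith
    · intro h; apply u2; linarith
    · intro h; apply u3; linarith
  have hev := hF.continuousAt.eventually_ne hF0
  obtain ⟨δ, hδ, hδF⟩ := Metric.eventually_nhds_iff.mp hev
  refine ⟨α₁, β₁, δ, hδ, hα2, hβ2, fun x y hx hy => ?_⟩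
  have h1 : F (x, y) ≠ 0 := by
    apply hδF
    rw [Prod.dist_eq, max_lt_iff, Real.dist_eq, Real.dist_eq]
    exact ⟨hx, hy⟩
  simp only [F] at h1
  have h2 := mul_ne_zero_iff.mp h1
  have h3 := mul_ne_zero_iff.mp h2.1
  have h4 := mul_ne_zero_iff.mp h3.1
  have h5 := mul_ne_zero_iff.mp h4.1
  exact ⟨h5.1, h5.2, h4.2, h3.2, h2.2⟩

theorem dense (S : Finset ℕ) (α β : ℝ) (α' β' : ∀ (p : ℕ) [Fact p.Prime], ℚ_[p]) (ε : ℝ)
    (hε : 0 < ε) (C : ℝ) : ∃ a b : ℚ, (sw a b).Δ ≠ 0 ∧ |(a : ℝ) - α| < ε ∧ |(b : ℝ) - β| < ε ∧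
      (∀ (p : ℕ) [Fact p.Prime], p ∈ S →
        ‖(a : ℚ_[p]) - α' p‖ < ε ∧ ‖(b : ℚ_[p]) - β' p‖ < ε) ∧
      ∀ τ : InfinitePlace ℚ → UpperHalfPlane, IsPeriod ((sw a b).c₄ ^ 3 / (sw a b).Δ) τ →
        1 / 2 * Real.log (cond (sw a b)) + C < faltings ((sw a b).c₄ ^ 3 / (sw a b).Δ) τ := by
  classical
  obtain ⟨α₁, β₁, δ, hδ, hα, hβ, hgood⟩ := good_real α β (ε / 3) (by linarith)
  obtain ⟨η, hη, hηδ, hηε⟩ : ∃ η : ℝ, 0 < η ∧ η ≤ δ ∧ η ≤ ε / 3 :=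
    ⟨min δ (ε / 3), lt_min hδ (by linarith), min_le_left _ _, min_le_right _ _⟩
  obtain ⟨a, ha, ha'⟩ := weak_approx S α₁ α' η hη
  obtain ⟨b, hb, hb'⟩ := weak_approx S β₁ β' η hη
  obtain ⟨g1, g2, g3, g4, g5⟩ := hgood a b (lt_of_lt_of_le ha hηδ) (lt_of_lt_of_le hb hηδ)
  have q1' : a ≠ 0 := by exact_mod_cast g1
  have q2' : b ≠ 0 := by exact_mod_cast g2
  have q3' : 4 * a ^ 3 + 27 * b ^ 2 ≠ 0 := by exact_mod_cast g3
  have q4' : a ^ 3 + 6 * b ^ 2 ≠ 0 := by exact_mod_cast g4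
  have q5' : a ^ 3 + 9 * b ^ 2 ≠ 0 := by exact_mod_cast g5
  -- the integral model
  obtain ⟨P, hP⟩ : ∃ P : ℕ, P = ∏ p ∈ S.filter Nat.Prime, p := ⟨_, rfl⟩
  have hP0 : P ≠ 0 := by
    rw [hP]
    exact Finset.prod_ne_zero_iff.mpr fun p hp => (Finset.mem_filter.mp hp).2.ne_zero
  obtain ⟨u, hu⟩ : ∃ u : ℕ, u = a.den * b.den * P := ⟨_, rfl⟩
  have hu0 : u ≠ 0 := by
    rw [hu]; exact mul_ne_zero (mul_ne_zero a.den_ne_zero b.den_ne_zero) hP0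
  have huq : (u : ℚ) ≠ 0 := by exact_mod_cast hu0
  obtain ⟨A, hA⟩ : ∃ A : ℤ, A = a.num * a.den ^ 3 * b.den ^ 4 * P ^ 4 := ⟨_, rfl⟩
  obtain ⟨B, hB⟩ : ∃ B : ℤ, B = b.num * a.den ^ 6 * b.den ^ 5 * P ^ 6 := ⟨_, rfl⟩
  have hAq : (A : ℚ) = (u : ℚ) ^ 4 * a := by
    rw [hA, hu]; push_cast
    have h1 := Rat.mul_den_eq_num a
    rw [← h1]; ring
  have hBq : (B : ℚ) = (u : ℚ) ^ 6 * b := by
    rw [hB, hu]; push_cast
    have h1 := Rat.mul_den_eq_num b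
    rw [← h1]; ring
  have hpoly : ∀ m n : ℤ, (m : ℚ) * a ^ 3 + n * b ^ 2 ≠ 0 → m * A ^ 3 + n * B ^ 2 ≠ 0 := by
    intro m n h0 h1
    have h2 : (m : ℚ) * (A : ℚ) ^ 3 + n * (B : ℚ) ^ 2 = 0 := by exact_mod_cast h1
    rw [hAq, hBq] at h2
    have h3 : (u : ℚ) ^ 12 * (m * a ^ 3 + n * b ^ 2) = 0 := by linear_combination h2
    rcases mul_eq_zero.mp h3 with h4 | h4
    · exact huq (pow_eq_zero_iff (by norm_num) |>.mp h4)
    · exact h0 h4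
  have hA0 : A ≠ 0 := by
    intro h0
    rw [h0] at hAq
    push_cast at hAq
    exact mul_ne_zero (pow_ne_zero 4 huq) q1' hAq.symm
  have hB0 : B ≠ 0 := by
    intro h0
    rw [h0] at hBq
    push_cast at hBq
    exact mul_ne_zero (pow_ne_zero 6 huq) q2' hBq.symm
  have d1 := hpoly 4 27 (by exact_mod_cast q3')
  have d2 := hpoly 1 6 (by push_cast; rw [one_mul]; exact q4')
  have d3 := hpoly 1 9 (by push_cast; rw [one_mul]; exact q5')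
  have hBse : Bse (-48 * A) (-864 * B) (-16 * (4 * A ^ 3 + 27 * B ^ 2)) := by
    refine ⟨by ring, mul_ne_zero (by norm_num) d1, mul_ne_zero (by norm_num) hA0,
      mul_ne_zero (by norm_num) hB0, ?_, ?_⟩
    · intro h; apply d2
      have : 9 * (-48 * A) ^ 3 - 8 * (-864 * B) ^ 2 = -995328 * (1 * A ^ 3 + 6 * B ^ 2) := by ring
      have h2 : -995328 * (1 * A ^ 3 + 6 * B ^ 2) = 0 := by rw [← this]; linarith
      exact (mul_eq_zero.mp h2).resolve_left (by norm_num)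
    · intro h; apply d3
      have : 3 * (-48 * A) ^ 3 - 4 * (-864 * B) ^ 2 = -331776 * (1 * A ^ 3 + 9 * B ^ 2) := by ring
      have h2 : -331776 * (1 * A ^ 3 + 9 * B ^ 2) = 0 := by rw [← this]; linarith
      exact (mul_eq_zero.mp h2).resolve_left (by norm_num)
  obtain ⟨a', b', hE, e1, e2, e3, e4⟩ := near_int real_main FC.main hBse u hu0 (ε / 3)
    (by linarith) C
  have f1 : -(((-48 * A : ℤ)) : ℚ) / (48 * (u : ℚ) ^ 4) = a := by
    push_cast; rw [hAq]; field_simp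
  have f2 : -(((-864 * B : ℤ)) : ℚ) / (864 * (u : ℚ) ^ 6) = b := by
    push_cast; rw [hBq]; field_simp
  have f1r : -(((-48 * A : ℤ)) : ℝ) / (48 * (u : ℝ) ^ 4) = a := by
    have := congrArg (fun q : ℚ => (q : ℝ)) f1
    push_cast at this ⊢
    exact this
  have f2r : -(((-864 * B : ℤ)) : ℝ) / (864 * (u : ℝ) ^ 6) = b := by
    have := congrArg (fun q : ℚ => (q : ℝ)) f2
    push_cast at this ⊢
    exact this
  rw [f1r] at e1
  rw [f2r] at e2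
  refine ⟨a', b', hE, ?_, ?_, ?_, e4⟩
  · have h1 : |(a' : ℝ) - α| ≤ |(a' : ℝ) - a| + |(a : ℝ) - α₁| + |α₁ - α| := by
      have : (a' : ℝ) - α = ((a' : ℝ) - a) + ((a : ℝ) - α₁) + (α₁ - α) := by ring
      rw [this]
      exact (abs_add_le _ _).trans (add_le_add (abs_add_le _ _) le_rfl)
    linarith
  · have h1 : |(b' : ℝ) - β| ≤ |(b' : ℝ) - b| + |(b : ℝ) - β₁| + |β₁ - β| := by
      have : (b' : ℝ) - β = ((b' : ℝ) - b) + ((b : ℝ) - β₁) + (β₁ - β) := by ring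
      rw [this]
      exact (abs_add_le _ _).trans (add_le_add (abs_add_le _ _) le_rfl)
    linarith
  · intro p fp hpS
    have hpP : (p : ℤ) ∣ P := by
      rw [hP]
      exact_mod_cast Finset.dvd_prod_of_mem (fun q : ℕ => q)
        (Finset.mem_filter.mpr ⟨hpS, fp.out⟩)
    have hpA : (p : ℤ) ∣ A := by
      rw [hA]; exact (dvd_pow hpP (by norm_num)).mul_left _
    have hpB : (p : ℤ) ∣ B := by
      rw [hB]; exact (dvd_pow hpP (by norm_num)).mul_left _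
    have hpD : (p : ℤ) ∣ 1728 * (-16 * (4 * A ^ 3 + 27 * B ^ 2)) := by
      apply Dvd.dvd.mul_left
      apply Dvd.dvd.mul_left
      exact dvd_add ((dvd_pow hpA (by norm_num)).mul_left _) ((dvd_pow hpB (by norm_num)).mul_left _)
    obtain ⟨k1, k2⟩ := e3 p fp.out hpD
    rw [f1] at k1
    rw [f2] at k2
    have n1 : ‖((a' - a : ℚ) : ℚ_[p])‖ < ε / 3 := by rw [Padic.eq_padicNorm]; exact k1
    have n2 : ‖((b' - b : ℚ) : ℚ_[p])‖ < ε / 3 := by rw [Padic.eq_padicNorm]; exact k2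
    push_cast at n1 n2
    constructor
    · have h1 := ha' p hpS
      calc ‖(a' : ℚ_[p]) - α' p‖ = ‖((a' : ℚ_[p]) - a) + ((a : ℚ_[p]) - α' p)‖ := by
            congr 1; ring
        _ ≤ _ := norm_add_le _ _
        _ < ε := by linarith
    · have h1 := hb' p hpS
      calc ‖(b' : ℚ_[p]) - β' p‖ = ‖((b' : ℚ_[p]) - b) + ((b : ℚ_[p]) - β' p)‖ := by
            congr 1; ring
        _ ≤ _ := norm_add_le _ _
        _ < ε := by linarith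

end Pool.Agent.Helper80.NE
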