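import Pool.Graph.R_pool_sql_team_seeded_1acbe0a2.Y680.G.Main
import Pool.Graph.R_pool_sql_team_seeded_2aa45f1a.Results.MP_c59389_nt.AllInvariantsAllHeights

/-!
# Frey's inequality needs its `ε` near every elliptic curve: statements of the modules
-/

set_option autoImplicit false

open WeierstrassCurve NumberField IsDedekindDomain

namespace Pool.Agent.Helper80.NE

open Pool.Agent.TH942 Pool.Agent.Y680.M Pool.Agent.Y680.G
open Pool.Agent.Results.MP_c59389_nt.AllInvariantsAllHeights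

/-- REAL. The multiples `n P` of a rational point of infinite order on `y² = x³ + k`, `n` in a given
class modulo `L`, come arbitrarily close to the origin in the real topology: `|y (n P)|` is large
(`yc 0 = 0`). -/
def S_REAL : Prop :=
  ∀ (k : ℚ), k ≠ 0 → ∀ P : SPt (0 : ℚ) k, (∀ n : ℕ, n ≠ 0 → n • P ≠ 0) →
    ∀ (L r : ℕ), L ≠ 0 → ∀ B : ℝ, ∃ n : ℕ, 0 < n ∧ n ≡ r [MOD L] ∧ B < |(yc (n • P) : ℝ)|

/-- FC. The curve `V` (any `E` over `ℚ` isomorphic to it) with discriminant `D ω ^ 6`, `ω` prime to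
`c₄` and to `1728 D`, has height at least `(1 / 2) log cond E + (1 / 2) log (ω / rad ω) - C`. -/
def S_FC : Prop :=
  ∀ D : ℤ, D ≠ 0 → ∃ C : ℝ, ∀ (V : WeierstrassCurve ℤ) (ω : ℕ), ω ≠ 0 →
    V.Δ = D * (ω : ℤ) ^ 6 → IsCoprime V.c₄ (ω : ℤ) → IsCoprime (1728 * D) (ω : ℤ) → V.Δ ≠ 0 →
    ∀ (E : WeierstrassCurve ℚ) (T : WeierstrassCurve.VariableChange ℚ),
      T • E = V.map (Int.castRingHom ℚ) →
      ∀ τ : InfinitePlace ℚ → UpperHalfPlane, IsPeriod (E.c₄ ^ 3 / E.Δ) τ →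
        1 / 2 * Real.log (cond E) + 1 / 2 * Real.log ((ω : ℝ) / rad ω) - C ≤
          faltings (E.c₄ ^ 3 / E.Δ) τ

end Pool.Agent.Helper80.NE
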